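import Mathlib

/-!
# Large abelian groups
-/

set_option autoImplicit false

open Cardinal Set Module
open scoped Cardinal

namespace Pool.Agent.J6H85.NS

/-- finitely supported functions with values in `ℚ / ℤ` -/
abbrev F : Type := ℝ →₀ AddCircle (1 : ℚ)

theorem F_baer : Module.Baer ℤ F := by
  have h : ∀ {n : ℤ}, n ≠ 0 → Function.Surjective (fun a : F => n • a) := by
    intro n hn a
    classical
    refine ⟨a.mapRange (fun q => if q = 0 then 0 else DivisibleBy.div q n) (by simp), ?_⟩
    ext r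
    simp only [Finsupp.smul_apply, Finsupp.mapRange_apply]
    split_ifs with h
    · rw [h, smul_zero]
    · exact DivisibleBy.div_cancel _ hn
  have : DivisibleBy F ℤ := divisibleByOfSMulRightSurj _ _ h
  exact Module.Baer.of_divisible F

section card

theorem card_hom {A B : Type} [AddCommGroup A] [AddCommGroup B] (f : A →+ B) {κ : Cardinal.{0}}
    (hκ : ℵ₀ ≤ κ) (h1 : #f.ker ≤ κ) (h2 : #f.range ≤ κ) : #A ≤ κ := by
  have e1 : A ≃ (A ⧸ f.ker) × f.ker := AddSubgroup.addGroupEquivQuotientProdAddSubgroup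
  have e2 : (A ⧸ f.ker) ≃+ f.range := QuotientAddGroup.quotientKerEquivRange f
  rw [Cardinal.mk_congr e1, ← Cardinal.mul_def, Cardinal.mk_congr e2.toEquiv]
  exact (mul_le_mul' h2 h1).trans (Cardinal.mul_eq_self hκ).le

variable {M : Type} [AddCommGroup M]

theorem card_sub (C : AddSubgroup M) (k : ℕ) (D : Set M) {κ : Cardinal.{0}}
    (hκ : ℵ₀ ≤ κ) (h1 : #(nsmulAddMonoidHom k : M →+ M).ker ≤ κ)
    (h2 : #D ≤ κ) (h3 : ∀ x ∈ C, k • x ∈ D) : #C ≤ κ := by
  refine card_hom ((nsmulAddMonoidHom k : M →+ M).comp C.subtype) hκ ?_ ?_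
  · let e : ((nsmulAddMonoidHom k : M →+ M).comp C.subtype).ker →
      (nsmulAddMonoidHom k : M →+ M).ker := fun x => ⟨((x : C) : M), x.2⟩
    have he : Function.Injective e := by
      intro x y h
      have h' : ((x : C) : M) = ((y : C) : M) := congrArg
        (fun z : (nsmulAddMonoidHom k : M →+ M).ker => (z : M)) h
      exact Subtype.ext (Subtype.ext h')
    exact le_trans (Cardinal.mk_le_of_injective he) h1
  · refine le_trans (Cardinal.mk_le_mk_of_subset (t := D) ?_) h2
    rintro _ ⟨x, rfl⟩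
    exact h3 _ x.2

theorem card_tors {κ : Cardinal.{0}} (hκ : ℵ₀ ≤ κ)
    (h : ∀ p : ℕ, p.Prime → #(nsmulAddMonoidHom p : M →+ M).ker ≤ κ) (k : ℕ) :
    k ≠ 0 → #(nsmulAddMonoidHom k : M →+ M).ker ≤ κ := by
  induction k using induction_on_primes with
  | zero => exact fun h => absurd rfl h
  | one =>
    intro _
    refine le_trans ?_ (Cardinal.one_le_aleph0.trans hκ)
    rw [Cardinal.le_one_iff_subsingleton]
    refine ⟨fun x y => Subtype.ext ?_⟩
    have hx : (1 : ℕ) • (x : M) = 0 := x.2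
    have hy : (1 : ℕ) • (y : M) = 0 := y.2
    rw [one_nsmul] at hx hy
    rw [hx, hy]
  | prime_mul p a hp ih =>
    intro hk
    have ha : a ≠ 0 := fun h => hk (by rw [h, mul_zero])
    refine card_sub _ p ((nsmulAddMonoidHom a : M →+ M).ker : Set M) hκ (h p hp) (ih ha) ?_
    intro x hx
    have hx' : (p * a) • x = 0 := hx
    show a • (p • x) = 0
    rw [← mul_smul, mul_comm, hx']

theorem card_span {ι : Type} (x : ι → M) : #(Submodule.span ℤ (range x)) ≤ max #ι ℵ₀ := by
  have h : Function.Surjective fun l : List (ι × ℤ) =>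
      (⟨(l.map fun q => q.2 • x q.1).sum, list_sum_mem (by
        intro y hy
        obtain ⟨q, -, rfl⟩ := List.mem_map.1 hy
        exact Submodule.smul_mem _ _ (Submodule.subset_span (mem_range_self _)))⟩ :
        Submodule.span ℤ (range x)) := by
    rintro ⟨y, hy⟩
    simp only [Subtype.mk.injEq]
    induction hy using Submodule.span_induction with
    | mem y h =>
      obtain ⟨i, rfl⟩ := h
      exact ⟨[(i, 1)], by simp⟩
    | zero => exact ⟨[], by simp⟩
    | add y z _ _ h1 h2 =>
      obtain ⟨l1, h1⟩ := h1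
      obtain ⟨l2, h2⟩ := h2
      exact ⟨l1 ++ l2, by simp [h1, h2]⟩
    | smul c y _ h =>
      obtain ⟨l, h⟩ := h
      refine ⟨l.map fun q => (q.1, c * q.2), ?_⟩
      rw [← h, List.map_map, List.smul_sum, List.map_map]
      congr 1
      refine List.map_congr_left fun q _ => ?_
      simp [mul_smul]
  refine (Cardinal.mk_le_of_surjective h).trans ((Cardinal.mk_list_le_max _).trans ?_)
  rw [← Cardinal.mul_def, Cardinal.mk_int, max_comm]
  refine max_le ?_ (le_max_right _ _)
  refine (Cardinal.mul_le_max _ _).trans ?_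
  simp

end card

variable {M : Type} [AddCommGroup M]

theorem exists_max (M : Type) [AddCommGroup M] : ∃ s : Set (Submodule ℤ M), sSupIndep s ∧
    (∀ N ∈ s, ∃ x : M, x ≠ 0 ∧ N = Submodule.span ℤ {x}) ∧
    ∀ x : M, x ≠ 0 → ¬ Disjoint (Submodule.span ℤ {x}) (sSup s) := by
  have := zorn_subset {s : Set (Submodule ℤ M) | sSupIndep s ∧
      ∀ N ∈ s, ∃ x : M, x ≠ 0 ∧ N = Submodule.span ℤ {x}} fun c hc1 hc2 =>
        ⟨⋃₀ c, ⟨iSupIndep_sUnion_of_directed hc2.directedOn fun s hs => (hc1 hs).1, ?_⟩,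
          fun _ => subset_sUnion_of_mem⟩
  swap
  · rintro N ⟨s, hs, hN⟩
    exact (hc1 hs).2 N hN
  obtain ⟨s, hs⟩ := this
  obtain ⟨⟨h1, h2⟩, h3⟩ := hs
  refine ⟨s, h1, h2, fun x hx hd => ?_⟩
  set a := Submodule.span ℤ {x} with ha
  have hmem : insert a s ∈ {s : Set (Submodule ℤ M) | sSupIndep s ∧
      ∀ N ∈ s, ∃ x : M, x ≠ 0 ∧ N = Submodule.span ℤ {x}} := by
    refine ⟨fun y hy => ?_, fun N hN => ?_⟩
    · rcases eq_or_ne y a with rfl | hya
      · refine hd.mono_right (sSup_le_sSup ?_)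
        rintro z ⟨hz1, hz2⟩
        exact hz1.resolve_left hz2
      · have hys : y ∈ s := hy.resolve_left hya
        have e : sSup (insert a s \ {y}) = sSup (s \ {y}) ⊔ a := by
          rw [Set.insert_sdiff_of_notMem _ (by simpa using hya.symm), sSup_insert, sup_comm]
        rw [e]
        refine (h1 hys).disjoint_sup_right_of_disjoint_sup_left (hd.symm.mono_left ?_)
        exact sup_le (le_sSup hys) (sSup_le_sSup sdiff_subset)
    · rcases hN with rfl | hN
      · exact ⟨x, hx, rfl⟩
      · exact h2 N hN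
  have h4 := h3 hmem (subset_insert a s)
  have h5 : a ≤ sSup s := le_sSup (h4 (mem_insert a s))
  have h6 : a = ⊥ := disjoint_self.1 (hd.mono_right h5)
  exact hx (Submodule.span_singleton_eq_bot.1 h6)

theorem big_family (h : 𝔠 ≤ #M) : ∃ x : ℝ → M, (∀ r, x r ≠ 0) ∧
    iSupIndep fun r => Submodule.span ℤ {x r} := by
  obtain ⟨s, h1, h2, h3⟩ := exists_max M
  have hs : 𝔠 ≤ #s := by
    by_contra hc
    push Not at hc
    choose! x hx0 hx using h2
    set κ := max #s ℵ₀ with hκdef
    have hκ : ℵ₀ ≤ κ := le_max_right _ _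
    have hκc : κ < 𝔠 := max_lt hc Cardinal.aleph0_lt_continuum
    set B : Submodule ℤ M := sSup s with hB
    have hBcard : #B ≤ κ := by
      have e : B = Submodule.span ℤ (range fun N : s => x N) := by
        apply le_antisymm
        · refine sSup_le fun N hN => ?_
          rw [hx N hN, Submodule.span_singleton_le_iff_mem]
          exact Submodule.subset_span ⟨⟨N, hN⟩, rfl⟩
        · rw [Submodule.span_le]
          rintro _ ⟨N, rfl⟩
          have h5 : (N : Submodule ℤ M) ≤ B := le_sSup N.2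
          refine h5 ?_
          rw [hx N N.2]
          exact Submodule.mem_span_singleton_self _
      rw [e]
      exact card_span _
    have hm : ∀ y : M, y ≠ 0 → ∃ k : ℤ, k • y ∈ B ∧ k • y ≠ 0 := by
      intro y hy
      have h5 := h3 y hy
      rw [Submodule.disjoint_def] at h5
      push Not at h5
      obtain ⟨z, hz1, hz2, hz3⟩ := h5
      obtain ⟨k, rfl⟩ := Submodule.mem_span_singleton.1 hz1
      exact ⟨k, hz2, hz3⟩
    have hp : ∀ p : ℕ, p.Prime → #(nsmulAddMonoidHom p : M →+ M).ker ≤ κ := by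
      intro p hp
      refine (Cardinal.mk_le_mk_of_subset (t := (B : Set M)) ?_).trans hBcard
      intro y hy
      have hy' : p • y = 0 := hy
      rcases eq_or_ne y 0 with rfl | hy0
      · exact B.zero_mem
      obtain ⟨k, hk1, hk2⟩ := hm y hy0
      have hpk : IsCoprime (p : ℤ) k := by
        rw [Prime.coprime_iff_not_dvd (Nat.prime_iff_prime_int.1 hp)]
        rintro ⟨m, rfl⟩
        apply hk2
        rw [mul_comm, mul_smul, natCast_zsmul, hy', smul_zero]
      obtain ⟨a, b, hab⟩ := hpk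
      have e : y = b • (k • y) := by
        rw [← mul_smul, ← sub_eq_of_eq_add' hab.symm, sub_smul, one_smul, mul_smul, natCast_zsmul,
          hy', smul_zero, sub_zero]
      rw [e]
      exact B.smul_mem _ hk1
    have htors := card_tors hκ hp
    have hC : ∀ k : ℕ, #(B.toAddSubgroup.comap (nsmulAddMonoidHom (k + 1) : M →+ M)) ≤ κ :=
      fun k => card_sub _ (k + 1) (B : Set M) hκ (htors (k + 1) (by omega)) hBcard fun x hx => hx
    have hU : (⋃ k : ℕ, (B.toAddSubgroup.comap (nsmulAddMonoidHom (k + 1) : M →+ M) : Set M)) =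
        Set.univ := by
      rw [eq_univ_iff_forall]
      intro y
      rw [mem_iUnion]
      rcases eq_or_ne y 0 with rfl | hy0
      · exact ⟨0, AddSubgroup.zero_mem _⟩
      obtain ⟨k, hk1, hk2⟩ := hm y hy0
      have hk : k.natAbs ≠ 0 := by
        intro h0
        rw [Int.natAbs_eq_zero] at h0
        rw [h0, zero_smul] at hk2
        exact hk2 rfl
      refine ⟨k.natAbs - 1, ?_⟩
      show (k.natAbs - 1 + 1) • y ∈ B
      rw [Nat.sub_add_cancel (by omega)]
      rw [← natCast_zsmul]
      rcases Int.natAbs_eq k with h6 | h6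
      · rwa [← h6]
      · have h7 : ((k.natAbs : ℕ) : ℤ) = -k := by omega
        rw [h7, neg_smul]
        exact B.neg_mem hk1
    have hM : #M ≤ κ := by
      rw [← Cardinal.mk_univ, ← hU]
      refine (Cardinal.mk_iUnion_le _).trans ?_
      refine (mul_le_mul' (Cardinal.mk_le_aleph0.trans hκ) (ciSup_le' hC)).trans ?_
      exact (Cardinal.mul_eq_self hκ).le
    exact absurd (h.trans hM) (not_le.2 hκc)
  rw [← Cardinal.mk_real] at hs
  obtain ⟨g⟩ := hs
  choose x hx0 hx using fun N : s => h2 N N.2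
  refine ⟨fun r => x (g r), fun r => hx0 _, ?_⟩
  have h4 : iSupIndep ((↑) : s → Submodule ℤ M) := (sSupIndep_iff s).1 h1
  have h5 := h4.comp g.injective
  have e : (((↑) : s → Submodule ℤ M) ∘ g) = fun r => Submodule.span ℤ {x (g r)} :=
    funext fun r => hx (g r)
  rwa [e] at h5

/-- **Large abelian groups.** -/
theorem exists_map (h : 𝔠 ≤ #M) : ∃ (x : ℝ → M) (f : M →+ F),
    ∀ r r' : ℝ, f (x r) r' = 0 ↔ r ≠ r' := by
  obtain ⟨x, hx0, hx⟩ := big_family h
  have hχ : ∀ r : ℝ, ∃ c : CharacterModule (Submodule.span ℤ {x r}),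
      c ⟨x r, Submodule.mem_span_singleton_self _⟩ ≠ 0 := fun r =>
    CharacterModule.exists_character_apply_ne_zero_of_ne_zero fun h0 =>
      hx0 r (congrArg Subtype.val h0)
  choose c hc using hχ
  classical
  let p : ℝ → Submodule ℤ M := fun r => Submodule.span ℤ {x r}
  let ι : (Π₀ r, p r) →ₗ[ℤ] M := (DFinsupp.lsum ℕ fun r => (p r).subtype)
  have hι : Function.Injective ι := hx.dfinsupp_lsum_injective
  let g : (Π₀ r, p r) →ₗ[ℤ] F := DFinsupp.lsum ℕ fun r =>
    (Finsupp.lsingle r : AddCircle (1 : ℚ) →ₗ[ℤ] F) ∘ₗ (AddMonoidHom.toIntLinearMap (c r))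
  obtain ⟨f, hf⟩ := F_baer.extension_property ι hι g
  refine ⟨x, f.toAddMonoidHom, fun r r' => ?_⟩
  have h1 : ι (DFinsupp.single r ⟨x r, Submodule.mem_span_singleton_self _⟩) = x r := by
    simp [ι]
  have h2 : f (ι (DFinsupp.single r ⟨x r, Submodule.mem_span_singleton_self _⟩)) =
      Finsupp.single r (c r ⟨x r, Submodule.mem_span_singleton_self _⟩) := by
    rw [← LinearMap.comp_apply, hf]
    simp [g]
    rfl
  have h3 : f (x r) = Finsupp.single r (c r ⟨x r, Submodule.mem_span_singleton_self _⟩) :=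
    (congrArg f h1).symm.trans h2
  show f (x r) r' = 0 ↔ r ≠ r'
  rw [h3]
  by_cases hrr : r = r'
  · subst hrr
    simpa using hc r
  · simp [hrr]

end Pool.Agent.J6H85.NS
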