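import Pool.Agent.J6H85.NS.Flow
import Pool.Agent.J6H85.LR.Aff

/-!
# The action of a Hamiltonian diffeomorphism
-/

set_option autoImplicit false

open Set Filter Topology
open Pool.Agent.Y453.HB
open scoped ContDiff

namespace Pool.Agent.J6H85.NS

variable {n : ℕ}

/-- the symplectic form -/
noncomputable def om0 (n : ℕ) : E n →ₗ[ℝ] E n →ₗ[ℝ] ℝ :=
  LinearMap.mk₂ ℝ (fun a b => ∑ i, (a.1 i * b.2 i - a.2 i * b.1 i))
    (fun a a' b => by
      rw [← Finset.sum_add_distrib]
      refine Finset.sum_congr rfl fun i _ => ?_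
      simp only [Prod.fst_add, Prod.snd_add, Pi.add_apply]
      ring)
    (fun c a b => by
      rw [smul_eq_mul, Finset.mul_sum]
      refine Finset.sum_congr rfl fun i _ => ?_
      simp only [Prod.smul_fst, Prod.smul_snd, Pi.smul_apply, smul_eq_mul]
      ring)
    (fun a b b' => by
      rw [← Finset.sum_add_distrib]
      refine Finset.sum_congr rfl fun i _ => ?_
      simp only [Prod.fst_add, Prod.snd_add, Pi.add_apply]
      ring)
    (fun c a b => by
      rw [smul_eq_mul, Finset.mul_sum]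
      refine Finset.sum_congr rfl fun i _ => ?_
      simp only [Prod.smul_fst, Prod.smul_snd, Pi.smul_apply, smul_eq_mul]
      ring)

/-- the symplectic form as a continuous bilinear map -/
noncomputable def om : E n →L[ℝ] E n →L[ℝ] ℝ :=
  LinearMap.toContinuousLinearMap
    ((LinearMap.toContinuousLinearMap (𝕜 := ℝ) (E := E n) (F' := ℝ)).toLinearMap ∘ₗ om0 n)

theorem om_apply (a b : E n) : om a b = ∑ i, (a.1 i * b.2 i - a.2 i * b.1 i) := rfl

theorem om_anti (a b : E n) : om a b = - om b a := by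
  rw [om_apply, om_apply, ← Finset.sum_neg_distrib]
  exact Finset.sum_congr rfl fun i _ => by ring

/-- the vector of a linear form -/
noncomputable def jl : (E n →L[ℝ] ℝ) →ₗ[ℝ] E n where
  toFun ℓ := ((fun i : Fin n => ℓ ((0 : Fin n → ℝ), (Pi.single i (1 : ℝ) : Fin n → ℝ))),
   (fun i : Fin n => -ℓ ((Pi.single i (1 : ℝ) : Fin n → ℝ), (0 : Fin n → ℝ))))
  map_add' a b := by
    ext i
    · rfl
    · simp only [_root_.add_apply, Prod.snd_add, Pi.add_apply]
      ring
  map_smul' c a := by
    ext i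
    · rfl
    · simp

/-- the vector of a linear form, continuous -/
noncomputable def J : (E n →L[ℝ] ℝ) →L[ℝ] E n := LinearMap.toContinuousLinearMap jl

theorem XH_eq_J (h : E n → ℝ) (p : E n) : XH h p = J (fderiv ℝ h p) := rfl

theorem E_decomp (b : E n) : b = ∑ i, (b.1 i • (((Pi.single i (1 : ℝ) : Fin n → ℝ),
    (0 : Fin n → ℝ)) : E n) + b.2 i • (((0 : Fin n → ℝ), (Pi.single i (1 : ℝ) : Fin n → ℝ)) :
    E n)) := by
  ext j
  · rw [Prod.fst_sum, Finset.sum_apply]
    simp [Pi.single_apply]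
  · rw [Prod.snd_sum, Finset.sum_apply]
    simp [Pi.single_apply]

theorem om_J (ℓ : E n →L[ℝ] ℝ) (b : E n) : om (J ℓ) b = ℓ b := by
  rw [om_apply]
  conv_rhs => rw [E_decomp b, map_sum]
  refine Finset.sum_congr rfl fun i _ => ?_
  rw [map_add, map_smul, map_smul, smul_eq_mul, smul_eq_mul]
  show ℓ _ * b.2 i - -ℓ _ * b.1 i = _
  ring

theorem J_om (a : E n) : J (om a) = a := by
  ext i
  · show om a _ = _
    rw [om_apply]
    simp [Pi.single_apply]
  · show - om a _ = _
    rw [om_apply]
    simp [Pi.single_apply]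

end Pool.Agent.J6H85.NS
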