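import Pool.Agent.J6H85.NS.Act

/-!
# The action of a Hamiltonian diffeomorphism, continued
-/

set_option autoImplicit false

open Set Filter Topology
open Pool.Agent.Y453.HB
open scoped ContDiff

namespace Pool.Agent.J6H85.NS

variable {n : ℕ}

theorem sT_deriv_zero {t : ℝ} (ht : t ∉ Icc (0 : ℝ) 1) : deriv Real.smoothTransition t = 0 := by
  rw [mem_Icc, not_and_or, not_le, not_le] at ht
  rcases ht with ht | ht
  · have h : Real.smoothTransition =ᶠ[𝓝 t] fun _ => 0 := by
      filter_upwards [Iio_mem_nhds ht] with s hs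
      exact Real.smoothTransition.zero_of_nonpos (le_of_lt hs)
    rw [h.deriv_eq]
    simp
  · have h : Real.smoothTransition =ᶠ[𝓝 t] fun _ => 1 := by
      filter_upwards [Ioi_mem_nhds ht] with s hs
      exact Real.smoothTransition.one_of_one_le (le_of_lt hs)
    rw [h.deriv_eq]
    simp

theorem deriv_line {V U : Type} [NormedAddCommGroup V] [NormedSpace ℝ V]
    [NormedAddCommGroup U] [NormedSpace ℝ U] {Φ : V → U} {x : V} (h : DifferentiableAt ℝ Φ x)
    (k : V) : HasDerivAt (fun r : ℝ => Φ (x + r • k)) (fderiv ℝ Φ x k) 0 := by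
  have h1 : HasDerivAt (fun r : ℝ => x + r • k) k 0 := by
    have h2 := ((hasDerivAt_id (0 : ℝ)).smul_const k).const_add x
    simpa using h2
  have h3 : HasFDerivAt Φ (fderiv ℝ Φ x) (x + (0 : ℝ) • k) := by
    rw [zero_smul, add_zero]
    exact h.hasFDerivAt
  exact h3.comp_hasDerivAt 0 h1

theorem key {u : E n ≃ₜ E n} (hu : IsHam u) : ContDiff ℝ ∞ u ∧ ∃ A : E n → ℝ, ContDiff ℝ ∞ A ∧
    (∀ x k, fderiv ℝ A x k = om (u x) (fderiv ℝ u x k) - om x k) ∧ ∀ x, ¬ Q x < 1 → A x = 0 := by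
  obtain ⟨H, hH, ⟨K, hK, hK1, hK2⟩, ψ, h0, hψ, h1⟩ := hu
  have hσ : ContDiff ℝ ∞ Real.smoothTransition := Real.smoothTransition.contDiff
  have hσ' := contDiff_infty_iff_deriv.1 hσ
  set σ := Real.smoothTransition with hσdef
  let P : ℝ × E n → (E n →L[ℝ] ℝ) := fun p => fderiv ℝ (H p.1) p.2
  have hHt : ∀ t, Differentiable ℝ (H t) := fun t => by
    have h2 : ContDiff ℝ ∞ (fun y : E n => Function.uncurry H (t, y)) :=
      hH.comp (contDiff_const.prodMk contDiff_id)
    exact h2.differentiable (by simp)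
  have hPeq : P = fun p => (fderiv ℝ (Function.uncurry H) p).comp
      (ContinuousLinearMap.inr ℝ ℝ (E n)) := by
    funext p
    have h2 : HasFDerivAt (Function.uncurry H) (fderiv ℝ (Function.uncurry H) p) (p.1, p.2) :=
      ((hH.differentiable (by simp)) p).hasFDerivAt
    have h3 := h2.comp p.2 (hasFDerivAt_prodMk_right p.1 p.2)
    exact h3.fderiv
  have hP : ContDiff ℝ ∞ P := by
    rw [hPeq]
    exact (hH.fderiv_right (m := ∞) (by simp)).clm_comp contDiff_const
  have hσp : ContDiff ℝ ∞ fun p : ℝ × E n => (σ p.1, p.2) :=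
    (hσ.comp contDiff_fst).prodMk contDiff_snd
  have hσ'p : ContDiff ℝ ∞ fun p : ℝ × E n => deriv σ p.1 := hσ'.2.comp contDiff_fst
  let X : ℝ × E n → E n := fun p => deriv σ p.1 • J (P (σ p.1, p.2))
  have hX : ContDiff ℝ ∞ X := hσ'p.smul (J.contDiff.comp (hP.comp hσp))
  let Y : ℝ × E n → E n × ℝ := fun p =>
    (X p, om p.2 (X p) + 2 * (deriv σ p.1 * H (σ p.1) p.2))
  have hHσ : ContDiff ℝ ∞ fun p : ℝ × E n => H (σ p.1) p.2 := hH.comp hσp
  have hY : ContDiff ℝ ∞ Y := hX.prodMk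
    (((om.contDiff.comp contDiff_snd).clm_apply hX).add (contDiff_const.mul (hσ'p.mul hHσ)))
  have hP0 : ∀ t x, x ∉ K → P (t, x) = 0 := by
    intro t x hx
    have h2 : H t =ᶠ[𝓝 x] fun _ => (0 : ℝ) := by
      filter_upwards [hK.isClosed.isOpen_compl.mem_nhds hx] with z hz using hK2 t z hz
    show fderiv ℝ (H t) x = 0
    rw [h2.fderiv_eq]
    simp
  have hX0 : ∀ p, p ∉ Icc (0 : ℝ) 1 ×ˢ K → X p = 0 := by
    intro p hp
    by_cases hp1 : p.1 ∈ Icc (0 : ℝ) 1
    · have hp2 : p.2 ∉ K := fun h => hp ⟨hp1, h⟩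
      show deriv σ p.1 • J (P (σ p.1, p.2)) = 0
      rw [hP0 _ _ hp2, map_zero, smul_zero]
    · show deriv σ p.1 • J (P (σ p.1, p.2)) = 0
      rw [sT_deriv_zero hp1, zero_smul]
  have hY0 : ∀ p, p ∉ Icc (0 : ℝ) 1 ×ˢ K → Y p = 0 := by
    intro p hp
    have h2 : deriv σ p.1 * H (σ p.1) p.2 = 0 := by
      by_cases hp1 : p.1 ∈ Icc (0 : ℝ) 1
      · have hp2 : p.2 ∉ K := fun h => hp ⟨hp1, h⟩
        rw [hK2 _ _ hp2, mul_zero]
      · rw [sT_deriv_zero hp1, zero_mul]
    show (X p, om p.2 (X p) + 2 * (deriv σ p.1 * H (σ p.1) p.2)) = 0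
    rw [h2, hX0 p hp, map_zero, mul_zero, add_zero]
    rfl
  have hYc : HasCompactSupport Y := HasCompactSupport.intro (isCompact_Icc.prod hK) hY0
  have hXc : HasCompactSupport X := HasCompactSupport.intro (isCompact_Icc.prod hK) hX0
  obtain ⟨Φ, hΦ, hΦ0, hΦd⟩ := exists_joint hY hYc
  obtain ⟨C, hC⟩ := hX.lipschitzWith_of_hasCompactSupport hXc (by simp)
  have hXL : ∀ t, LipschitzWith C fun y => X (t, y) := fun t => by
    refine LipschitzWith.of_dist_le_mul fun y y' => ?_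
    have h2 := hC.dist_le_mul (t, y) (t, y')
    rwa [dist_prod_same_left] at h2
  have hΦ1 : ∀ t x, HasDerivAt (fun s => (Φ (s, x)).1) (X (t, (Φ (t, x)).1)) t := fun t x =>
    (ContinuousLinearMap.fst ℝ (E n) ℝ).hasFDerivAt.comp_hasDerivAt t (hΦd t x)
  have hΦ2 : ∀ t x, HasDerivAt (fun s => (Φ (s, x)).2) (Y (t, (Φ (t, x)).1)).2 t := fun t x =>
    (ContinuousLinearMap.snd ℝ (E n) ℝ).hasFDerivAt.comp_hasDerivAt t (hΦd t x)
  have huniq : ∀ (x : E n) (w : ℝ → E n), w 0 = x → (∀ t, HasDerivAt w (X (t, w t)) t) →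
      w = fun t => (Φ (t, x)).1 := by
    intro x w hw0 hw
    refine ODE_solution_unique_univ (v := fun t y => X (t, y)) (s := fun _ => univ) (K := C)
      (t₀ := 0) (fun t => (hXL t).lipschitzOnWith) (fun t => ⟨hw t, trivial⟩)
      (fun t => ⟨hΦ1 t x, trivial⟩) ?_
    rw [hw0, hΦ0]
  have hu1 : ∀ x, u x = (Φ (1, x)).1 := by
    intro x
    have h2 := congrFun (huniq x (fun t => ψ (σ t) x) (by
      show ψ (σ 0) x = x
      rw [hσdef, Real.smoothTransition.zero, h0]) fun t =>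
        (hψ (σ t) x).scomp t (hσ'.1 t).hasDerivAt) 1
    rw [← h2, h1]
    show ψ 1 x = ψ (σ 1) x
    rw [hσdef, Real.smoothTransition.one]
  have hueq : (u : E n → E n) = fun x => (Φ (1, x)).1 := funext hu1
  have h1x : ContDiff ℝ ∞ fun x : E n => Φ (1, x) := hΦ.comp (contDiff_const.prodMk contDiff_id)
  have hus : ContDiff ℝ ∞ u := by
    rw [hueq]
    exact contDiff_fst.comp h1x
  refine ⟨hus, fun x => (Φ (1, x)).2, contDiff_snd.comp h1x, fun x k => ?_, fun x hx => ?_⟩
  · have hΦdiff : Differentiable ℝ Φ := hΦ.differentiable (by simp)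
    let Z : ℝ × E n → E n × ℝ := fun p => Y (p.1, (Φ p).1)
    have hZs : ContDiff ℝ ∞ Z := hY.comp (contDiff_fst.prodMk (contDiff_fst.comp hΦ))
    have hZdiff : Differentiable ℝ Z := hZs.differentiable (by simp)
    let B : ℝ → E n × ℝ := fun s => fderiv ℝ Φ (s, x) (0, k)
    have hB : ∀ t, HasDerivAt B (fderiv ℝ Z (t, x) (0, k)) t := fun t => swap hΦ hΦd t x k
    -- lines
    have hline : ∀ (t r : ℝ), ((t, x) : ℝ × E n) + r • ((0 : ℝ), k) = (t, x + r • k) := by
      intro t r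
      simp
    have hc1 : ∀ t, HasDerivAt (fun r : ℝ => Φ (t, x + r • k)) (B t) 0 := fun t => by
      have h2 := deriv_line (hΦdiff (t, x)) ((0 : ℝ), k)
      simp only [hline] at h2
      exact h2
    have hc2 : ∀ t, HasDerivAt (fun r : ℝ => Z (t, x + r • k)) (fderiv ℝ Z (t, x) (0, k)) 0 :=
      fun t => by
        have h2 := deriv_line (hZdiff (t, x)) ((0 : ℝ), k)
        simp only [hline] at h2
        exact h2
    have hW : ∀ t, (fderiv ℝ Z (t, x) (0, k)).2 = om (B t).1 (Z (t, x)).1 +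
        om (Φ (t, x)).1 (fderiv ℝ Z (t, x) (0, k)).1 +
        2 * (deriv σ t * P (σ t, (Φ (t, x)).1) (B t).1) := by
      intro t
      have h2 : HasDerivAt (fun r : ℝ => (Z (t, x + r • k)).2) (fderiv ℝ Z (t, x) (0, k)).2 0 :=
        (ContinuousLinearMap.snd ℝ (E n) ℝ).hasFDerivAt.comp_hasDerivAt 0 (hc2 t)
      have h3 : HasDerivAt (fun r : ℝ => (Z (t, x + r • k)).1) (fderiv ℝ Z (t, x) (0, k)).1 0 :=
        (ContinuousLinearMap.fst ℝ (E n) ℝ).hasFDerivAt.comp_hasDerivAt 0 (hc2 t)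
      have h4 : HasDerivAt (fun r : ℝ => (Φ (t, x + r • k)).1) (B t).1 0 :=
        (ContinuousLinearMap.fst ℝ (E n) ℝ).hasFDerivAt.comp_hasDerivAt 0 (hc1 t)
      have h5 : HasDerivAt (fun r : ℝ => om (Φ (t, x + r • k)).1) (om (B t).1) 0 :=
        om.hasFDerivAt.comp_hasDerivAt 0 h4
      have h6 := h5.clm_apply h3
      have h7 : HasDerivAt (fun r : ℝ => H (σ t) (Φ (t, x + r • k)).1)
          (P (σ t, (Φ (t, x)).1) (B t).1) 0 := by
        have h8 : HasFDerivAt (H (σ t)) (P (σ t, (Φ (t, x)).1)) (Φ (t, x + (0 : ℝ) • k)).1 := by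
          rw [zero_smul, add_zero]
          exact (hHt (σ t) _).hasFDerivAt
        exact h8.comp_hasDerivAt 0 h4
      have h8 := h6.add ((h7.const_mul (deriv σ t)).const_mul 2)
      have h9 := h2.unique h8
      rw [h9]
      simp only [zero_smul, add_zero]
    let q : ℝ → ℝ := fun s => om (Φ (s, x)).1 (B s).1 - (B s).2
    have hq : ∀ t, HasDerivAt q 0 t := by
      intro t
      have h2 : HasDerivAt (fun s => (B s).1) (fderiv ℝ Z (t, x) (0, k)).1 t :=
        (ContinuousLinearMap.fst ℝ (E n) ℝ).hasFDerivAt.comp_hasDerivAt t (hB t)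
      have h3 : HasDerivAt (fun s => (B s).2) (fderiv ℝ Z (t, x) (0, k)).2 t :=
        (ContinuousLinearMap.snd ℝ (E n) ℝ).hasFDerivAt.comp_hasDerivAt t (hB t)
      have h4 : HasDerivAt (fun s : ℝ => om (Φ (s, x)).1) (om (Z (t, x)).1) t :=
        om.hasFDerivAt.comp_hasDerivAt t (hΦ1 t x)
      have h5 := (h4.clm_apply h2).sub h3
      have e : om (Z (t, x)).1 (B t).1 + om (Φ (t, x)).1 (fderiv ℝ Z (t, x) (0, k)).1 -
          (fderiv ℝ Z (t, x) (0, k)).2 = 0 := by
        have h6 : om (Z (t, x)).1 (B t).1 = deriv σ t * P (σ t, (Φ (t, x)).1) (B t).1 := by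
          show om (deriv σ t • J (P (σ t, (Φ (t, x)).1))) (B t).1 = _
          rw [map_smul, _root_.smul_apply, om_J, smul_eq_mul]
        rw [hW t, om_anti (B t).1, h6]
        ring
      rw [e] at h5
      exact h5
    have h10 : q 1 = q 0 := is_const_of_deriv_eq_zero (fun s => (hq s).differentiableAt)
      (fun s => (hq s).deriv) 1 0
    have hB0 : B 0 = (k, 0) := by
      have h2 := hc1 0
      have h3 : HasDerivAt (fun r : ℝ => Φ (0, x + r • k)) ((k, 0) : E n × ℝ) 0 := by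
        simp only [hΦ0]
        have h4 := (((hasDerivAt_id (0 : ℝ)).smul_const k).const_add x).prodMk
          (hasDerivAt_const (0 : ℝ) (0 : ℝ))
        simpa using h4
      exact h2.unique h3
    have hB1 : B 1 = (fderiv ℝ u x k, fderiv ℝ (fun x => (Φ (1, x)).2) x k) := by
      have h2 := hc1 1
      have h3 : HasDerivAt (fun r : ℝ => (Φ (1, x + r • k)).1) (fderiv ℝ u x k) 0 := by
        have h4 := deriv_line ((hus.differentiable (by simp)) x) k
        simp only [hu1] at h4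
        exact h4
      have h5 := deriv_line (((contDiff_snd.comp h1x).differentiable (by simp)) x) k
      exact h2.unique (h3.prodMk h5)
    have h11 : om (Φ (1, x)).1 (B 1).1 - (B 1).2 = om (Φ (0, x)).1 (B 0).1 - (B 0).2 := h10
    rw [hB0, hB1, ← hu1, hΦ0] at h11
    simp only [sub_zero] at h11
    linarith
  · have hxK : x ∉ K := fun h => hx (hK1 h)
    have hconst : (fun _ : ℝ => x) = fun t => (Φ (t, x)).1 := by
      refine huniq x (fun _ => x) rfl fun t => ?_
      have h2 : X (t, x) = 0 := hX0 _ fun h => hxK h.2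
      simp only [h2]
      exact hasDerivAt_const t x
    have h3 : ∀ t, HasDerivAt (fun s => (Φ (s, x)).2) 0 t := by
      intro t
      have h4 := hΦ2 t x
      have h5 : (Φ (t, x)).1 = x := (congrFun hconst t).symm
      rw [h5, hY0 _ fun h => hxK h.2] at h4
      exact h4
    have h4 := is_const_of_deriv_eq_zero (fun s => (h3 s).differentiableAt)
      (fun s => (h3 s).deriv) 1 0
    rw [hΦ0] at h4
    exact h4

end Pool.Agent.J6H85.NS
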