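import Pool.Agent.J6H85.NS.Act2

/-!
# Expanding a Hamiltonian diffeomorphism with small support
-/

set_option autoImplicit false

open Set Filter Topology
open Pool.Agent.Y453.HB
open Pool.Agent.J6H85.LR (cpy cpy_apply cpy_apply')
open Pool.Agent.R773.HN (nm D Supp nm_nonneg nm_add nm_zero nm_smul nm_neg nm_sub_comm nm_cont nm_tri
  norm_le_nm D_closed D_compact nm_lt_one)
open scoped ContDiff

namespace Pool.Agent.J6H85.NS

variable {n : ℕ}

/-- symplecticity -/
theorem symp {v : E n → E n} (hv : ContDiff ℝ ∞ v) {A : E n → ℝ} (hA : ContDiff ℝ ∞ A)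
    (h : ∀ x k, fderiv ℝ A x k = om (v x) (fderiv ℝ v x k) - om x k) (x k l : E n) :
    om (fderiv ℝ v x k) (fderiv ℝ v x l) = om k l := by
  have hd : Differentiable ℝ v := hv.differentiable (by simp)
  have hd2 : Differentiable ℝ (fderiv ℝ v) :=
    (hv.fderiv_right (m := ∞) (by simp)).differentiable (by simp)
  have hA2 : Differentiable ℝ (fderiv ℝ A) :=
    (hA.fderiv_right (m := ∞) (by simp)).differentiable (by simp)
  have key1 : ∀ k l, fderiv ℝ (fderiv ℝ A) x k l = om (fderiv ℝ v x k) (fderiv ℝ v x l) +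
      om (v x) (fderiv ℝ (fderiv ℝ v) x k l) - om k l := by
    intro k l
    have h1 := (deriv_line (hA2 x) k).clm_apply (hasDerivAt_const (0 : ℝ) l)
    have h2 : HasDerivAt (fun r : ℝ => om (v (x + r • k))) (om (fderiv ℝ v x k)) 0 :=
      om.hasFDerivAt.comp_hasDerivAt 0 (deriv_line (hd x) k)
    have h3 := (deriv_line (hd2 x) k).clm_apply (hasDerivAt_const (0 : ℝ) l)
    have h4 := h2.clm_apply h3
    have h5 : HasDerivAt (fun r : ℝ => om (x + r • k) l) (om k l) 0 := by
      have h6 : HasDerivAt (fun r : ℝ => x + r • k) k 0 := by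
        have h2 := ((hasDerivAt_id (0 : ℝ)).smul_const k).const_add x
        simpa using h2
      have h7 : HasDerivAt (fun r : ℝ => om (x + r • k)) (om k) 0 :=
        om.hasFDerivAt.comp_hasDerivAt 0 h6
      have h8 := h7.clm_apply (hasDerivAt_const (0 : ℝ) l)
      simpa using h8
    have h9 := h4.sub h5
    have e : (fun r : ℝ => fderiv ℝ A (x + r • k) l) =
        (fun r : ℝ => om (v (x + r • k)) (fderiv ℝ v (x + r • k) l)) -
          fun r : ℝ => om (x + r • k) l := by
      funext r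
      exact h _ _
    rw [e] at h1
    have h10 := h1.unique h9
    simpa using h10
  have hs1 : IsSymmSndFDerivAt ℝ A x := by
    refine (hA.contDiffAt).isSymmSndFDerivAt ?_
    rw [minSmoothness_of_isRCLikeNormedField]
    exact ENat.LEInfty.out
  have hs2 : IsSymmSndFDerivAt ℝ v x := by
    refine (hv.contDiffAt).isSymmSndFDerivAt ?_
    rw [minSmoothness_of_isRCLikeNormedField]
    exact ENat.LEInfty.out
  have h1 := key1 k l
  have h2 := key1 l k
  rw [hs1, hs2] at h1
  rw [h1] at h2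
  have h3 := om_anti (fderiv ℝ v x l) (fderiv ℝ v x k)
  have h4 := om_anti l k
  linarith

/-- the generating Hamiltonian -/
theorem gen {u : E n ≃ₜ E n} (hu : IsHam u) {ρ : ℝ} (hρ0 : 0 < ρ)
    (hρ : ∀ x, ρ < nm x → u x = x) :
    ContDiff ℝ ∞ u ∧ ContDiff ℝ ∞ (u⁻¹ : E n ≃ₜ E n) ∧ ∃ F : E n → ℝ, ContDiff ℝ ∞ F ∧
    (∀ x, ρ < nm x → F x = 0) ∧ ∀ y, XH F (u y) = u y - fderiv ℝ u y y := by
  have hv : IsHam u⁻¹ := (Pool.Agent.Y510.HB.inv n).2 u hu
  obtain ⟨hus, -⟩ := key hu
  obtain ⟨hvs, A, hA, hA1, hA2⟩ := key hv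
  have hvd : Differentiable ℝ (u⁻¹ : E n ≃ₜ E n) := hvs.differentiable (by simp)
  have hud : Differentiable ℝ u := hus.differentiable (by simp)
  have hAd : Differentiable ℝ A := hA.differentiable (by simp)
  have hρv : ∀ x, ρ < nm x → (u⁻¹ : E n ≃ₜ E n) x = x := fun x hx => by
    have h1 := hρ x hx
    conv_lhs => rw [← h1]
    exact inv_apply_self u x
  have hDA : ∀ x, ρ < nm x → fderiv ℝ A x = 0 := by
    intro x hx
    refine ContinuousLinearMap.ext fun k => ?_
    have h1 : ((u⁻¹ : E n ≃ₜ E n) : E n → E n) =ᶠ[𝓝 x] fun y => y := by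
      filter_upwards [(isOpen_lt continuous_const nm_cont).mem_nhds hx] with y hy
      exact hρv y hy
    have h2 : fderiv ℝ (u⁻¹ : E n ≃ₜ E n) x = ContinuousLinearMap.id ℝ (E n) := by
      rw [h1.fderiv_eq]
      exact fderiv_fun_id
    rw [hA1, h2, hρv x hx]
    simp
  refine ⟨hus, hvs, fun x => -A x, hA.neg, fun x hx => ?_, fun y => ?_⟩
  · have hx2 : 0 < nm x := hρ0.trans hx
    have hline : ∀ s : ℝ, 1 ≤ s → HasDerivAt (fun s : ℝ => A (s • x)) 0 s := by
      intro s hs
      have h1 : ρ < nm (s • x) := by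
        rw [nm_smul, abs_of_pos (by linarith)]
        have := nm_nonneg x
        nlinarith
      have h2 : HasDerivAt (fun s : ℝ => s • x) x s := by
        have h3 := (hasDerivAt_id s).smul_const x
        simpa using h3
      have h3 := (hAd (s • x)).hasFDerivAt.comp_hasDerivAt s h2
      rw [hDA _ h1] at h3
      exact h3
    have hconst : ∀ s : ℝ, 1 ≤ s → A (s • x) = A ((1 : ℝ) • x) := by
      intro s hs
      have h1 := (convex_Ici (1 : ℝ)).is_const_of_fderivWithin_eq_zero (𝕜 := ℝ)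
        (f := fun s : ℝ => A (s • x))
        (fun t ht => (hline t ht).differentiableAt.differentiableWithinAt)
        (fun t ht => by
          have h2 := ((hline t ht).hasDerivWithinAt (s := Ici (1 : ℝ))).hasFDerivWithinAt.fderivWithin
            (uniqueDiffOn_Ici 1 t ht)
          rw [h2]
          ext
          simp) hs (Set.mem_Ici.2 (le_refl (1 : ℝ)))
      exact h1
    show -A x = 0
    rw [neg_eq_zero]
    have h1 := hconst (max 1 (nm x)⁻¹) (le_max_left _ _)
    rw [one_smul] at h1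
    rw [← h1]
    refine hA2 _ fun h2 => ?_
    have h3 := nm_lt_one h2
    rw [nm_smul, abs_of_pos (by positivity)] at h3
    have h4 : (nm x)⁻¹ * nm x ≤ max 1 (nm x)⁻¹ * nm x :=
      mul_le_mul_of_nonneg_right (le_max_right _ _) hx2.le
    rw [inv_mul_cancel₀ hx2.ne'] at h4
    linarith
  · have hvu : ∀ k, fderiv ℝ (u⁻¹ : E n ≃ₜ E n) (u y) (fderiv ℝ u y k) = k := by
      intro k
      have h1 : HasFDerivAt ((u⁻¹ : E n ≃ₜ E n) ∘ u)
          ((fderiv ℝ (u⁻¹ : E n ≃ₜ E n) (u y)).comp (fderiv ℝ u y)) y :=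
        (hvd (u y)).hasFDerivAt.comp y (hud y).hasFDerivAt
      have h2 : ((u⁻¹ : E n ≃ₜ E n) : E n → E n) ∘ u = id := funext fun z => inv_apply_self u z
      rw [h2] at h1
      have h3 := h1.unique (hasFDerivAt_id y)
      exact congrArg (fun L : E n →L[ℝ] E n => L k) h3
    have h1 : fderiv ℝ (fun x => -A x) (u y) = om (u y - fderiv ℝ u y y) := by
      have h2 : fderiv ℝ (fun x => -A x) (u y) = -fderiv ℝ A (u y) := fderiv_fun_neg
      rw [h2]
      refine ContinuousLinearMap.ext fun k => ?_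
      rw [_root_.neg_apply, hA1, inv_apply_self, map_sub, _root_.sub_apply]
      have h3 := symp hvs hA hA1 (u y) (fderiv ℝ u y y) k
      rw [hvu] at h3
      rw [h3]
      ring
    rw [XH_eq_J, h1, J_om]

/-- **Expansion.** -/
theorem expand {u : E n ≃ₜ E n} (hu : IsHam u) {ρ R : ℝ} (hρ0 : 0 < ρ)
    (hρ : ∀ x, ρ < nm x → u x = x) (hR : 1 ≤ R) (hR1 : R * ρ < 1) :
    IsHam (cpy 0 R (one_pos.trans_le hR) u) := by
  obtain ⟨hus, hvs, F, hF, hF0, hF1⟩ := gen hu hρ0 hρ
  have hR0 : 0 < R := one_pos.trans_le hR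
  have hσ : ContDiff ℝ ∞ Real.smoothTransition := Real.smoothTransition.contDiff
  have hud : Differentiable ℝ u := hus.differentiable (by simp)
  let r : ℝ → ℝ := fun t => 1 + (R - 1) * Real.smoothTransition t
  have hr : ContDiff ℝ ∞ r := contDiff_const.add (contDiff_const.mul hσ)
  have hr' := contDiff_infty_iff_deriv.1 hr
  have hr1 : ∀ t, 1 ≤ r t := fun t => by
    have := Real.smoothTransition.nonneg t
    show 1 ≤ 1 + (R - 1) * Real.smoothTransition t
    nlinarith
  have hrR : ∀ t, r t ≤ R := fun t => by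
    have := Real.smoothTransition.le_one t
    show 1 + (R - 1) * Real.smoothTransition t ≤ R
    nlinarith
  have hr0 : ∀ t, 0 < r t := fun t => one_pos.trans_le (hr1 t)
  have hw : IsHam (cpy 0 R hR0 u * u⁻¹) := by
    refine ⟨fun t z => deriv r t * (r t * F ((r t)⁻¹ • z)), ?_, ⟨D 0 (R * ρ), D_compact _ _, ?_, ?_⟩,
      fun t x => r t • u ((r t)⁻¹ • (u⁻¹ : E n ≃ₜ E n) x), ?_, ?_, ?_⟩
    · have h1 : ContDiff ℝ ∞ fun p : ℝ × E n => deriv r p.1 := hr'.2.comp contDiff_fst
      have h2 : ContDiff ℝ ∞ fun p : ℝ × E n => r p.1 := hr.comp contDiff_fst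
      have h3 : ContDiff ℝ ∞ fun p : ℝ × E n => (r p.1)⁻¹ := h2.inv fun p => (hr0 _).ne'
      exact h1.mul (h2.mul (hF.comp (h3.smul contDiff_snd)))
    · intro x hx
      have h1 : nm (x - 0) ≤ R * ρ := hx
      rw [sub_zero] at h1
      exact Pool.Agent.J6H85.LR.Q_of_nm (h1.trans_lt hR1)
    · intro t x hx
      have h1 : ¬ nm (x - 0) ≤ R * ρ := hx
      rw [sub_zero, not_le] at h1
      have h2 : ρ < nm ((r t)⁻¹ • x) := by
        rw [nm_smul, abs_of_pos (inv_pos.2 (hr0 t)), ← div_eq_inv_mul, lt_div_iff₀ (hr0 t)]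
        have := hrR t
        nlinarith
      show deriv r t * (r t * F ((r t)⁻¹ • x)) = 0
      rw [hF0 _ h2, mul_zero, mul_zero]
    · intro x
      have e : r 0 = 1 := by
        show 1 + (R - 1) * Real.smoothTransition 0 = 1
        rw [Real.smoothTransition.zero, mul_zero, add_zero]
      show r 0 • u ((r 0)⁻¹ • (u⁻¹ : E n ≃ₜ E n) x) = x
      rw [e, inv_one, one_smul, one_smul, apply_inv_self]
    · intro t x
      set y : E n := (r t)⁻¹ • (u⁻¹ : E n ≃ₜ E n) x with hy
      have hrt : HasDerivAt r (deriv r t) t := (hr'.1 t).hasDerivAt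
      have h1 : HasDerivAt (fun s => (r s)⁻¹) (-deriv r t / r t ^ 2) t := hrt.fun_inv (hr0 t).ne'
      have h2 : HasDerivAt (fun s => (r s)⁻¹ • (u⁻¹ : E n ≃ₜ E n) x)
          ((-deriv r t / r t ^ 2) • (u⁻¹ : E n ≃ₜ E n) x) t := h1.smul_const _
      have h3 := (hud y).hasFDerivAt.comp_hasDerivAt t h2
      have h4 := hrt.smul h3
      have hXH : XH (fun z => deriv r t * (r t * F ((r t)⁻¹ • z))) (r t • u y) =
          deriv r t • XH F (u y) := by
        have h5 : HasFDerivAt (fun z : E n => (r t)⁻¹ • z)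
            ((r t)⁻¹ • ContinuousLinearMap.id ℝ (E n)) (r t • u y) :=
          ((r t)⁻¹ • ContinuousLinearMap.id ℝ (E n)).hasFDerivAt
        have h6 : HasFDerivAt F (fderiv ℝ F (u y)) ((r t)⁻¹ • (r t • u y)) := by
          rw [inv_smul_smul₀ (hr0 t).ne']
          exact ((hF.differentiable (by simp)) _).hasFDerivAt
        have h7 := ((h6.comp _ h5).const_mul (r t)).const_mul (deriv r t)
        have h8 : fderiv ℝ (fun z => deriv r t * (r t * F ((r t)⁻¹ • z))) (r t • u y) =
            deriv r t • fderiv ℝ F (u y) := by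
          refine h7.fderiv.trans ?_
          refine ContinuousLinearMap.ext fun k => ?_
          simp only [_root_.smul_apply, ContinuousLinearMap.comp_apply,
            ContinuousLinearMap.id_apply, map_smul, smul_eq_mul]
          rw [mul_inv_cancel_left₀ (hr0 t).ne']
        rw [XH_eq_J, h8, map_smul, XH_eq_J]
      show HasDerivAt (fun s => r s • u ((r s)⁻¹ • (u⁻¹ : E n ≃ₜ E n) x))
        (XH (fun z => deriv r t * (r t * F ((r t)⁻¹ • z))) (r t • u y)) t
      rw [hXH, hF1]
      refine h4.congr_deriv ?_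
      have h5 : (-deriv r t / r t ^ 2) • (u⁻¹ : E n ≃ₜ E n) x = (-deriv r t / r t) • y := by
        rw [hy, smul_smul]
        congr 1
        field_simp
      rw [h5, map_smul, smul_smul, smul_sub]
      have h6 : r t * (-deriv r t / r t) = -deriv r t := by
        rw [mul_div_assoc', mul_div_cancel_left₀ _ (hr0 t).ne']
      rw [h6, neg_smul]
      show _ + deriv r t • u y = _
      abel
    · intro x
      have e : r 1 = R := by
        show 1 + (R - 1) * Real.smoothTransition 1 = R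
        rw [Real.smoothTransition.one]
        ring
      show cpy 0 R hR0 u ((u⁻¹ : E n ≃ₜ E n) x) = r 1 • u ((r 1)⁻¹ • (u⁻¹ : E n ≃ₜ E n) x)
      rw [e, cpy_apply', sub_zero, zero_add]
  have h1 := Pool.Agent.Y907.HB.mul n _ _ hw hu
  rwa [inv_mul_cancel_right] at h1

end Pool.Agent.J6H85.NS
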