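import Pool.Agent.J6H85.NS.Ab

/-!
# Normal subgroups of a group: chains and unions
-/

set_option autoImplicit false

open Cardinal Set
open scoped Cardinal

namespace Pool.Agent.J6H85.NS

variable {G : Type} [Group G]

/-- a cube of normal subgroups -/
theorem cube (h : 𝔠 ≤ #(Abelianization G)) : ∃ c : Set ℝ → Subgroup G,
    (∀ A, (c A).Normal) ∧ (∀ A, commutator G ≤ c A) ∧ (∀ A B, c A ≤ c B ↔ A ⊆ B) ∧
    ∀ g : G, ∃ T : Finset ℝ, ∀ A : Set ℝ, (T : Set ℝ) ⊆ A → g ∈ c A := by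
  have h' : 𝔠 ≤ #(Additive (Abelianization G)) := h
  obtain ⟨x, f, hf⟩ := exists_map h'
  let φ : G →* Multiplicative F :=
    (AddMonoidHom.toMultiplicativeRight f).comp Abelianization.of
  have hφ : ∀ g : G, (φ g).toAdd = f (Additive.ofMul (Abelianization.of g)) := fun g => rfl
  let H : Set ℝ → AddSubgroup F := fun A =>
    { carrier := {a | ∀ r, r ∉ A → a r = 0}
      zero_mem' := fun r _ => rfl
      add_mem' := fun {a b} ha hb r hr => by
        rw [Finsupp.add_apply, ha r hr, hb r hr, add_zero]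
      neg_mem' := fun {a} ha r hr => by
        rw [Finsupp.neg_apply, ha r hr, neg_zero] }
  let c : Set ℝ → Subgroup G := fun A => (H A).toSubgroup.comap φ
  have hc : ∀ A g, g ∈ c A ↔ ∀ r, r ∉ A → (φ g).toAdd r = 0 := fun A g => Iff.rfl
  refine ⟨c, fun A => ?_, fun A => ?_, fun A B => ⟨fun hAB a ha => ?_, fun hAB g hg => ?_⟩,
    fun g => ?_⟩
  · exact Subgroup.Normal.comap inferInstance φ
  · exact (Abelianization.commutator_subset_ker φ).trans (MonoidHom.ker_le_comap _ _)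
  · by_contra haB
    obtain ⟨g, hg⟩ : ∃ g : G, Abelianization.of g = (x a).toMul := QuotientGroup.mk_surjective _
    have h1 : (φ g).toAdd = f (x a) := by
      rw [hφ, hg]
      rfl
    have h2 : g ∈ c A := by
      rw [hc]
      intro r hr
      rw [h1, hf]
      rintro rfl
      exact hr ha
    have h3 := (hc B g).1 (hAB h2) a haB
    rw [h1, hf] at h3
    exact h3 rfl
  · rw [hc] at hg ⊢
    exact fun r hr => hg r fun h => hr (hAB h)
  · refine ⟨(φ g).toAdd.support, fun A hA => ?_⟩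
    rw [hc]
    intro r hr
    by_contra h0
    exact hr (hA (Finsupp.mem_support_iff.2 h0))

/-- a group with many normal subgroups -/
def Chain (G : Type) [Group G] : Prop :=
  ∃ c : ℝ → Subgroup G, StrictMono c ∧ ∀ r, (c r).Normal

/-- a group which is the union of an increasing sequence of proper normal subgroups -/
def Union (G : Type) [Group G] : Prop :=
  ∃ N : ℕ → Subgroup G, Monotone N ∧ (∀ k, (N k).Normal) ∧ (∀ k, N k ≠ ⊤) ∧ ∀ g, ∃ k, g ∈ N k

theorem cube_chain (h : 𝔠 ≤ #(Abelianization G)) : Chain G := by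
  obtain ⟨c, h1, -, h3, -⟩ := cube h
  refine ⟨fun r => c (Iio r), fun r s hrs => ?_, fun r => h1 _⟩
  refine lt_of_le_not_ge ((h3 _ _).2 (Iio_subset_Iio hrs.le)) fun h4 => ?_
  have h5 : Iio s ⊆ Iio r := (h3 _ _).1 h4
  exact lt_irrefl r (h5 (mem_Iio.2 hrs))

theorem cube_union (h : 𝔠 ≤ #(Abelianization G)) : Union G := by
  obtain ⟨c, h1, -, h3, h4⟩ := cube h
  refine ⟨fun k => c (Iio (k : ℝ)), fun k m hkm => (h3 _ _).2 (Iio_subset_Iio (by exact_mod_cast hkm)),
    fun k => h1 _, fun k hk => ?_, fun g => ?_⟩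
  · have h5 : c Set.univ ≤ c (Iio (k : ℝ)) := by
      show c Set.univ ≤ c (Iio (k : ℝ))
      rw [show c (Iio (k : ℝ)) = ⊤ from hk]
      exact le_top
    have h6 := (h3 _ _).1 h5 (Set.mem_univ (k : ℝ))
    exact lt_irrefl (k : ℝ) (mem_Iio.1 h6)
  · obtain ⟨T, hT⟩ := h4 g
    obtain ⟨m, hm⟩ := T.bddAbove
    obtain ⟨k, hk⟩ := exists_nat_gt m
    exact ⟨k, hT _ fun r hr => (hm hr).trans_lt hk⟩

theorem chain_card (h : Chain G) : 𝔠 ≤ #{N : Subgroup G // N.Normal} := by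
  obtain ⟨c, h1, h2⟩ := h
  rw [← Cardinal.mk_real]
  exact Cardinal.mk_le_of_injective (f := fun r : ℝ => (⟨c r, h2 r⟩ : {N : Subgroup G // N.Normal}))
    fun r s hrs => h1.injective (congrArg Subtype.val hrs)

/-- the conditions for a group -/
theorem tfae_of (hs : ¬ IsSimpleGroup G → Chain G ∧ Union G) (P : Prop) (hP1 : P → IsSimpleGroup G)
    (hP2 : ∀ g : G, Subgroup.normalClosure {g} = ⊤ → P) (R : Prop) (hR : IsSimpleGroup G ↔ R)
    (T : Prop) (hT : IsSimpleGroup G ↔ T)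
    (hV : (∀ N : Subgroup G, N.Normal → N ≠ ⊥ → #(G ⧸ N) < 𝔠) → IsSimpleGroup G) :
    List.TFAE [IsSimpleGroup G,
    ∃ g : G, Subgroup.normalClosure {g} = ⊤,
    ∃ A : Set G, A.Finite ∧ Subgroup.normalClosure A = ⊤,
    P,
    R,
    ∀ N : ℕ → Subgroup G, (∀ k, (N k).Normal) → Monotone N → (∀ φ, ∃ k, φ ∈ N k) → ∃ k, N k = ⊤,
    ∃ M : Subgroup G, M.Normal ∧ M ≠ ⊤ ∧ ∀ N : Subgroup G, N.Normal → N ≠ ⊤ → N ≤ M,
    ∀ N : ℕ → Subgroup G, (∀ k, (N k).Normal) → Monotone N → ∃ k, ∀ m, k ≤ m → N m = N k,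
    ∀ N : ℕ → Subgroup G, (∀ k, (N k).Normal) → Antitone N → ∃ k, ∀ m, k ≤ m → N m = N k,
    #{N : Subgroup G // N.Normal} < 𝔠,
    ¬ ∃ c : ℝ → Subgroup G, StrictMono c ∧ ∀ r, (c r).Normal,
    ∀ N : Subgroup G, N.Normal → N ≠ ⊥ → #(G ⧸ N) < 𝔠,
    T,
    ∀ ν : G → ℝ, (∀ φ ψ, ν (φ * ψ⁻¹) ≤ max (ν φ) (ν ψ)) → (∀ φ ψ, ν (ψ * φ * ψ⁻¹) = ν φ) →
      ∃ C, ∀ φ, ν φ ≤ C] := by
  have hbt : IsSimpleGroup G → ∀ N : Subgroup G, N.Normal → N = ⊥ ∨ N = ⊤ := fun h N hN =>
    h.eq_bot_or_eq_top_of_normal N hN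
  tfae_have 1 ↔ 5 := hR
  tfae_have 1 ↔ 13 := hT
  tfae_have 12 → 1 := hV
  tfae_have 1 → 12 := by
    intro h N hN hne
    rw [(hbt h N hN).resolve_left hne]
    have h1 : Subsingleton (G ⧸ (⊤ : Subgroup G)) := QuotientGroup.subsingleton_quotient_top
    exact (Cardinal.mk_le_aleph0 (α := G ⧸ (⊤ : Subgroup G))).trans_lt Cardinal.aleph0_lt_continuum
  tfae_have 2 → 3 := fun ⟨g, hg⟩ => ⟨{g}, Set.finite_singleton g, hg⟩
  tfae_have 2 → 4 := fun ⟨g, hg⟩ => hP2 g hg
  tfae_have 4 → 1 := hP1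
  tfae_have 1 → 7 := by
    intro h
    refine ⟨⊥, inferInstance, bot_ne_top, fun N hN hne => ?_⟩
    rw [(hbt h N hN).resolve_right hne]
  tfae_have 7 → 6 := by
    rintro ⟨M, hM, hM1, hM2⟩ N hN hmono hU
    by_contra hc
    push Not at hc
    apply hM1
    rw [eq_top_iff]
    intro g _
    obtain ⟨k, hk⟩ := hU g
    exact hM2 _ (hN k) (hc k) hk
  tfae_have 1 → 2 := by
    intro h
    obtain ⟨g, hg⟩ := exists_ne (1 : G)
    refine ⟨g, (hbt h _ Subgroup.normalClosure_normal).resolve_left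
      fun hb => hg ?_⟩
    have h1 : g ∈ Subgroup.normalClosure {g} := Subgroup.subset_normalClosure rfl
    rwa [hb, Subgroup.mem_bot] at h1
  tfae_have 1 → 6 := by
    intro h N hN _ hU
    obtain ⟨g, hg⟩ := exists_ne (1 : G)
    obtain ⟨k, hk⟩ := hU g
    refine ⟨k, (hbt h _ (hN k)).resolve_left fun hb => hg ?_⟩
    rwa [hb, Subgroup.mem_bot] at hk
  tfae_have 1 → 8 := by
    intro h N hN hmono
    by_cases hk : ∃ k, N k = ⊤
    · obtain ⟨k, hk⟩ := hk
      refine ⟨k, fun m hm => ?_⟩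
      rw [hk, eq_top_iff, ← hk]
      exact hmono hm
    · push Not at hk
      have h1 : ∀ k, N k = ⊥ := fun k => (hbt h _ (hN k)).resolve_right (hk k)
      exact ⟨0, fun m _ => by rw [h1, h1]⟩
  tfae_have 1 → 9 := by
    intro h N hN hanti
    by_cases hk : ∃ k, N k = ⊥
    · obtain ⟨k, hk⟩ := hk
      refine ⟨k, fun m hm => ?_⟩
      rw [hk, eq_bot_iff, ← hk]
      exact hanti hm
    · push Not at hk
      have h1 : ∀ k, N k = ⊤ := fun k => (hbt h _ (hN k)).resolve_left (hk k)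
      exact ⟨0, fun m _ => by rw [h1, h1]⟩
  tfae_have 1 → 10 := by
    intro h
    have h1 : Finite {N : Subgroup G // N.Normal} := by
      refine Finite.of_injective (β := Prop) (fun N => N.1 = ⊥) fun N M hNM => Subtype.ext ?_
      have hNM' : (N.1 = ⊥) = (M.1 = ⊥) := hNM
      rcases hbt h _ N.2 with h2 | h2 <;> rcases hbt h _ M.2 with h3 | h3
      · rw [h2, h3]
      · rw [h2, eq_comm]
        rw [← hNM']
        exact h2
      · rw [h3, hNM']
        exact h3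
      · rw [h2, h3]
    exact (Cardinal.lt_aleph0_of_finite _).trans Cardinal.aleph0_lt_continuum
  tfae_have 10 → 11 := fun h hc => absurd (chain_card hc) (not_le.2 h)
  tfae_have 8 → 11 := by
    rintro h ⟨c, h1, h2⟩
    obtain ⟨k, hk⟩ := h (fun k => c (k : ℝ)) (fun k => h2 _) fun k m hkm =>
      h1.monotone (by exact_mod_cast hkm)
    have h3 := hk (k + 1) (by omega)
    have h4 : ((k + 1 : ℕ) : ℝ) = (k : ℝ) := h1.injective h3
    push_cast at h4
    linarith
  tfae_have 9 → 11 := by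
    rintro h ⟨c, h1, h2⟩
    obtain ⟨k, hk⟩ := h (fun k => c (-(k : ℝ))) (fun k => h2 _) fun k m hkm =>
      h1.monotone (by simpa using (by exact_mod_cast hkm : (k : ℝ) ≤ m))
    have h3 := hk (k + 1) (by omega)
    have h4 : -((k + 1 : ℕ) : ℝ) = -(k : ℝ) := h1.injective h3
    push_cast at h4
    linarith
  tfae_have 11 → 1 := by
    intro h
    by_contra hc
    exact h (hs hc).1
  tfae_have 6 → 1 := by
    intro h
    by_contra hc
    obtain ⟨N, h1, h2, h3, h4⟩ := (hs hc).2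
    obtain ⟨k, hk⟩ := h N h2 h1 h4
    exact h3 k hk
  tfae_have 3 → 1 := by
    rintro ⟨A, hA, hA1⟩
    by_contra hc
    obtain ⟨N, h1, h2, h3, h4⟩ := (hs hc).2
    choose k hk using h4
    obtain ⟨m, hm⟩ := (hA.image k).bddAbove
    apply h3 m
    rw [eq_top_iff, ← hA1]
    refine Subgroup.normalClosure_le_normal (N := N m) fun a ha => ?_
    exact h1 (hm ⟨a, ha, rfl⟩) (hk a)
  tfae_have 1 → 14 := by
    intro h ν h1 h2
    obtain ⟨g, hg⟩ := exists_ne (1 : G)
    have h3 : ∀ φ, ν 1 ≤ ν φ := fun φ => by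
      have h4 := h1 φ φ
      rwa [mul_inv_cancel, max_self] at h4
    let N : Subgroup G :=
      { carrier := {φ | ν φ ≤ ν g}
        one_mem' := h3 g
        mul_mem' := fun {a b} (ha : ν a ≤ ν g) (hb : ν b ≤ ν g) => by
          have h5 : ν b⁻¹ ≤ ν b := by
            have h6 := h1 1 b
            rw [one_mul] at h6
            exact h6.trans (max_le (h3 b) le_rfl)
          have h6 := h1 a b⁻¹
          rw [inv_inv] at h6
          exact h6.trans (max_le ha (h5.trans hb))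
        inv_mem' := fun {b} (hb : ν b ≤ ν g) => by
          have h6 := h1 1 b
          rw [one_mul] at h6
          exact (h6.trans (max_le (h3 b) le_rfl)).trans hb }
    have hN : N.Normal := ⟨fun a (ha : ν a ≤ ν g) b => by
      show ν (b * a * b⁻¹) ≤ ν g
      rw [h2]
      exact ha⟩
    have hgN : g ∈ N := le_refl (ν g)
    rcases hbt h N hN with h4 | h4
    · rw [h4, Subgroup.mem_bot] at hgN
      exact absurd hgN hg
    · refine ⟨ν g, fun φ => ?_⟩
      have h5 : φ ∈ N := by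
        rw [h4]
        exact Subgroup.mem_top φ
      exact h5
  tfae_have 14 → 1 := by
    intro h
    by_contra hc
    obtain ⟨N, h1, h2, h3, h4⟩ := (hs hc).2
    classical
    let k : G → ℕ := fun g => Nat.find (h4 g)
    have hk : ∀ g, g ∈ N (k g) := fun g => Nat.find_spec (h4 g)
    have hk' : ∀ g m, g ∈ N m → k g ≤ m := fun g m hm => Nat.find_min' (h4 g) hm
    obtain ⟨C, hC⟩ := h (fun g => (k g : ℝ)) (fun φ ψ => by
      have h5 : k (φ * ψ⁻¹) ≤ max (k φ) (k ψ) := hk' _ _ ((N _).mul_mem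
        (h1 (le_max_left _ _) (hk φ)) ((N _).inv_mem (h1 (le_max_right _ _) (hk ψ))))
      exact_mod_cast h5) fun φ ψ => by
        have h5 : k (ψ * φ * ψ⁻¹) = k φ := by
          apply le_antisymm
          · exact hk' _ _ ((h2 _).conj_mem _ (hk φ) ψ)
          · refine hk' _ _ ?_
            have h6 := (h2 _).conj_mem _ (hk (ψ * φ * ψ⁻¹)) ψ⁻¹
            have e : ψ⁻¹ * (ψ * φ * ψ⁻¹) * ψ⁻¹⁻¹ = φ := by group
            rwa [e] at h6
        exact_mod_cast h5
    obtain ⟨m, hm⟩ := exists_nat_gt C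
    apply h3 m
    rw [eq_top_iff]
    intro g _
    have h5 : (k g : ℝ) ≤ m := (hC g).trans hm.le
    exact h1 (by exact_mod_cast h5) (hk g)
  tfae_finish

end Pool.Agent.J6H85.NS
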