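import Pool.Agent.J6H85.NS.Alx
import Pool.Agent.J6H85.LR.Two
import Pool.Agent.J6H85.NS.Grp

/-!
# Normal closures of the groups of the concentric balls
-/

set_option autoImplicit false

open Set Filter Topology
open Pool.Agent.Y453.HB
open Pool.Agent.Y309.HB
open Pool.Agent.J6H85.LR
open Pool.Agent.R773.HN (nm D Supp nm_nonneg nm_add nm_zero nm_smul nm_neg nm_sub_comm nm_cont nm_tri
  norm_le_nm D_closed D_compact nm_lt_one)

namespace Pool.Agent.J6H85.NS

variable {n : ℕ}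

/-- limits of Hamiltonian diffeomorphisms supported in `L` are Hamiltonian homeomorphisms of the
balls containing `L` -/
theorem Sh_of {L : Set (E n)} (hL : IsCompact L) {ρ s : ℝ} (hρ0 : 0 < ρ) (hρ : ∀ x ∈ L, nm x ≤ ρ)
    (hs : ρ < s) (hs1 : s ≤ 1) {φ : HamBar n} (h : (φ : E n ≃ₜ E n) ∈ Pool.Agent.N235.DH.HK n L) :
    φ ∈ Sh n s := by
  obtain ⟨hL2, u, hu1, hu2, hu3⟩ := h
  have hfix : ∀ w : E n ≃ₜ E n, (∀ x, x ∉ L → w x = x) → ∀ x, ρ < nm x → w x = x :=
    fun w hw x hx => hw x fun h => absurd (hρ x h) (not_le.2 hx)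
  have hs0 : 0 < s := hρ0.trans hs
  set R : ℝ := s⁻¹ with hR
  have hR1 : 1 ≤ R := (one_le_inv₀ hs0).2 hs1
  have hRρ : R * ρ < 1 := by
    rw [hR, ← div_eq_inv_mul, div_lt_one hs0]
    exact hs
  have hR0 : 0 < R := by linarith
  have hfix' : ∀ w : E n ≃ₜ E n, (∀ x, x ∉ L → w x = x) → ∀ x,
      x ∉ (fun x : E n => R • x) '' L → cpy 0 R hR0 w x = x := by
    intro w hw x hx
    rw [cpy_apply', sub_zero, zero_add, hw, smul_smul, mul_inv_cancel₀ hR0.ne', one_smul]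
    intro hc
    refine hx ⟨_, hc, ?_⟩
    show R • (R⁻¹ • x) = x
    rw [smul_smul, mul_inv_cancel₀ hR0.ne', one_smul]
  have hg : cpy 0 R hR0 (φ : E n ≃ₜ E n) ∈ HamBar n := by
    apply Subgroup.subset_closure
    refine ⟨(fun x : E n => R • x) '' L, hL.image (continuous_const_smul R), ?_, hfix' _ hL2,
      fun k => cpy 0 R hR0 (u k), fun k => hfix' _ (hu1 k),
      fun k => expand (hu2 k) hρ0 (hfix _ (hu1 k)) hR1 hRρ, ?_⟩
    · rintro _ ⟨x, hx, rfl⟩
      show Q (R • x) < 1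
      apply Q_of_nm
      rw [nm_smul, abs_of_pos hR0]
      have := hρ x hx
      nlinarith
    · have h1 := uc_mul (uc_mul (uc_af 0 R hR0) (uconv_of uc hL hL2 hu3)) (uc_inv (uc_af 0 R hR0))
      exact h1.1
  refine ⟨⟨_, hg⟩, fun x => ?_⟩
  show (φ : E n ≃ₜ E n) (s • x) = s • cpy 0 R hR0 (φ : E n ≃ₜ E n) x
  rw [cpy_apply', sub_zero, zero_add, smul_smul, hR, mul_inv_cancel₀ hs0.ne', one_smul, inv_inv]

/-- every Hamiltonian homeomorphism is a Hamiltonian homeomorphism of a smaller ball -/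
theorem exists_Sh (φ : HamBar n) : ∃ s : ℝ, 0 < s ∧ s < 1 ∧ φ ∈ Sh n s := by
  obtain ⟨L, hL, hL1, hL2, u, hu1, hu2, hu3⟩ := (mem_iff Pool.Agent.Y907.HB.mul
    Pool.Agent.Y510.HB.inv uc).1 φ.2
  obtain ⟨ρ, hρ0, hρ1, hρ⟩ : ∃ ρ : ℝ, 0 < ρ ∧ ρ < 1 ∧ ∀ x ∈ L, nm x ≤ ρ := by
    rcases L.eq_empty_or_nonempty with rfl | hne
    · exact ⟨1 / 2, by norm_num, by norm_num, fun x hx => absurd hx (notMem_empty x)⟩
    · obtain ⟨y, hy, hmax⟩ := hL.exists_isMaxOn hne nm_cont.continuousOn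
      exact ⟨max (1 / 2) (nm y), by positivity, max_lt (by norm_num) (nm_lt_one (hL1 hy)),
        fun x hx => (hmax hx).trans (le_max_right _ _)⟩
  exact ⟨(1 + ρ) / 2, by linarith, by linarith, Sh_of hL hρ0 hρ (by linarith) (by linarith)
    ⟨hL2, u, hu1, hu2, hu3⟩⟩

/-- the normal closure of the group of the ball of radius `s` -/
noncomputable def N (n : ℕ) (s : ℝ) : Subgroup (HamBar n) := Subgroup.normalClosure (Sh n s)

instance (s : ℝ) : (N n s).Normal := Subgroup.normalClosure_normal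

theorem N_mono {s t : ℝ} (hs : 0 < s) (hst : s ≤ t) (ht1 : t ≤ 1) : N n s ≤ N n t :=
  Subgroup.normalClosure_mono (Sh_mono hs hst ht1)

theorem Sh_one (φ : HamBar n) : φ ∈ Sh n 1 := (mem_Sh one_pos le_rfl).2 ⟨φ, sc_one φ⟩

theorem N_one : N n 1 = ⊤ := by
  rw [eq_top_iff]
  exact fun φ _ => Subgroup.subset_normalClosure (Sh_one φ)

theorem sc_N {t s : ℝ} (ht : 0 < t) (ht1 : t ≤ 1) (hs : 0 < s) (hs1 : s ≤ 1) {φ : HamBar n}
    (h : φ ∈ N n s) : sc t ht ht1 φ ∈ N n (t * s) := by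
  have h1 : N n s ≤ (N n (t * s)).comap (sc t ht ht1) := by
    refine Subgroup.normalClosure_le_normal ?_
    intro x hx
    obtain ⟨g, rfl⟩ := (mem_Sh hs hs1).1 hx
    refine Subgroup.subset_normalClosure ((mem_Sh (by positivity)
      (mul_le_one₀ ht1 hs.le hs1)).2 ⟨g, ?_⟩)
    rw [sc_sc]
  exact h1 h

theorem N_step {a b t : ℝ} (ha : 0 < a) (hab : a ≤ b) (hb1 : b ≤ 1) (h : N n a = N n b)
    (ht : 0 < t) (ht1 : t ≤ 1) : N n (t * a) = N n (t * b) := by
  have hb : 0 < b := ha.trans_le hab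
  apply le_antisymm
  · exact N_mono (by positivity) (mul_le_mul_of_nonneg_left hab ht.le) (mul_le_one₀ ht1 hb.le hb1)
  · refine Subgroup.normalClosure_le_normal ?_
    intro x hx
    obtain ⟨g, rfl⟩ := (mem_Sh (by positivity) (mul_le_one₀ ht1 hb.le hb1)).1 hx
    rw [← sc_sc t b ht ht1 hb hb1]
    refine sc_N ht ht1 ha (hab.trans hb1) ?_
    rw [h]
    exact Subgroup.subset_normalClosure ((mem_Sh hb hb1).2 ⟨g, rfl⟩)

theorem N_const {a b : ℝ} (ha : 0 < a) (hab : a < b) (hb1 : b ≤ 1) (h : N n a = N n b)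
    {s : ℝ} (hs : 0 < s) (hsb : s ≤ b) : N n s = N n b := by
  have hb : 0 < b := ha.trans hab
  have hq : 0 < a / b := by positivity
  have hq1 : a / b < 1 := (div_lt_one hb).2 hab
  have key : ∀ k : ℕ, N n ((a / b) ^ k * b) = N n b := by
    intro k
    induction k with
    | zero => rw [pow_zero, one_mul]
    | succ k ih =>
      have h1 := N_step ha hab.le hb1 h (t := (a / b) ^ k) (by positivity)
        (pow_le_one₀ hq.le hq1.le)
      have e : (a / b) ^ (k + 1) * b = (a / b) ^ k * a := by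
        rw [pow_succ]
        field_simp
      rw [e, h1, ih]
  obtain ⟨k, hk⟩ := exists_pow_lt_of_lt_one hs hq1
  apply le_antisymm (N_mono hs hsb hb1)
  rw [← key k]
  refine N_mono (by positivity) ?_ (hsb.trans hb1)
  have h2 : (a / b) ^ k * b ≤ (a / b) ^ k * 1 := mul_le_mul_of_nonneg_left hb1 (by positivity)
  linarith

/-- **The threshold.** -/
theorem threshold (n : ℕ) : ∃ τ : ℝ, 0 ≤ τ ∧ τ ≤ 1 ∧
    ∀ s s' : ℝ, 0 < s → s < s' → s' ≤ 1 → (N n s = N n s' ↔ s' ≤ τ) := by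
  set E' : Set ℝ := {b | b = 0 ∨ (b ≤ 1 ∧ ∃ a, 0 < a ∧ a < b ∧ N n a = N n b)} with hE
  have hne : E'.Nonempty := ⟨0, Or.inl rfl⟩
  have hbd : BddAbove E' := ⟨1, by
    rintro b (rfl | ⟨h, -⟩)
    · exact zero_le_one
    · exact h⟩
  refine ⟨sSup E', le_csSup hbd (Or.inl rfl), csSup_le hne (by
    rintro b (rfl | ⟨h, -⟩)
    · exact zero_le_one
    · exact h), fun s s' hs hss hs1 => ⟨fun h => le_csSup hbd (Or.inr ⟨hs1, s, hs, hss, h⟩),
      fun h => ?_⟩⟩
  apply le_antisymm (N_mono hs hss.le hs1)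
  refine Subgroup.normalClosure_le_normal ?_
  intro x hx
  have hs' : 0 < s' := hs.trans hss
  obtain ⟨g, rfl⟩ := (mem_Sh hs' hs1).1 hx
  obtain ⟨ρ, hρ, hρ1, hg⟩ := exists_Sh g
  obtain ⟨g', rfl⟩ := (mem_Sh hρ hρ1.le).1 hg
  have hm : max (s' * ρ) s < sSup E' := max_lt (by nlinarith) (hss.trans_le h)
  obtain ⟨b, hb, hmb⟩ := exists_lt_of_lt_csSup hne hm
  have hb0 : 0 < b := (hs.trans_le (le_max_right _ _)).trans hmb
  obtain ⟨hb1, a, ha, hab, hN⟩ : b ≤ 1 ∧ ∃ a, 0 < a ∧ a < b ∧ N n a = N n b := by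
    rcases hb with rfl | hb
    · exact absurd hb0 (lt_irrefl 0)
    · exact hb
  have h1 : N n (s' * ρ) = N n b := N_const ha hab hb1 hN (by positivity)
    ((le_max_left _ _).trans hmb.le)
  have h2 : N n s = N n b := N_const ha hab hb1 hN hs ((le_max_right _ _).trans hmb.le)
  have h3 : sc s' hs' hs1 (sc ρ hρ hρ1.le g') ∈ N n (s' * ρ) := by
    rw [sc_sc]
    exact Subgroup.subset_normalClosure ((mem_Sh (by positivity)
      (mul_le_one₀ hs1 hρ.le hρ1.le)).2 ⟨g', rfl⟩)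
  rw [h1, ← h2] at h3
  exact h3

theorem nofrag (h : ¬ Fragmentation n) : ∃ τ : ℝ, 0 ≤ τ ∧ τ < 1 ∧
    (∀ s s' : ℝ, 0 < s → s < s' → s' ≤ 1 → (N n s = N n s' ↔ s' ≤ τ)) ∧
    ∀ s : ℝ, 0 < s → s < 1 → N n s ≠ ⊤ := by
  obtain ⟨τ, h1, h2, h3⟩ := threshold n
  have h4 : τ < 1 := by
    by_contra hc
    push Not at hc
    refine h fun s hs hs1 => ?_
    rcases lt_or_eq_of_le hs1 with hs2 | rfl
    · have h5 := (h3 s 1 hs hs2 le_rfl).2 hc
      rw [N_one] at h5
      exact h5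
    · exact N_one
  refine ⟨τ, h1, h4, h3, fun s hs hs1 hN => ?_⟩
  rw [← N_one, h3 s 1 hs hs1 le_rfl] at hN
  linarith

theorem frag_chain (h : ¬ Fragmentation n) : Chain (HamBar n) := by
  obtain ⟨τ, h1, h2, h3, -⟩ := nofrag h
  have hπ := Real.pi_pos
  let f : ℝ → ℝ := fun r => τ + (1 - τ) * (Real.arctan r / Real.pi + 1 / 2)
  have hf0 : ∀ r, τ < f r := fun r => by
    have h4 : 0 < Real.arctan r / Real.pi + 1 / 2 := by
      have h5 := Real.neg_pi_div_two_lt_arctan r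
      have h6 : -(1 / 2) < Real.arctan r / Real.pi := by
        rw [lt_div_iff₀ hπ]
        linarith
      linarith
    have h7 : 0 < (1 - τ) * (Real.arctan r / Real.pi + 1 / 2) := mul_pos (by linarith) h4
    show τ < τ + (1 - τ) * (Real.arctan r / Real.pi + 1 / 2)
    linarith
  have hf1 : ∀ r, f r ≤ 1 := fun r => by
    have h4 : Real.arctan r / Real.pi + 1 / 2 ≤ 1 := by
      have h5 := Real.arctan_lt_pi_div_two r
      have h6 : Real.arctan r / Real.pi < 1 / 2 := by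
        rw [div_lt_iff₀ hπ]
        linarith
      linarith
    have h7 : (1 - τ) * (Real.arctan r / Real.pi + 1 / 2) ≤ (1 - τ) * 1 :=
      mul_le_mul_of_nonneg_left h4 (by linarith)
    show τ + (1 - τ) * (Real.arctan r / Real.pi + 1 / 2) ≤ 1
    linarith
  have hfm : StrictMono f := fun r r' hrr => by
    have h5 := Real.arctan_strictMono hrr
    have h6 : Real.arctan r / Real.pi < Real.arctan r' / Real.pi := by gcongr
    have h7 : (1 - τ) * (Real.arctan r / Real.pi + 1 / 2) <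
        (1 - τ) * (Real.arctan r' / Real.pi + 1 / 2) :=
      mul_lt_mul_of_pos_left (by linarith) (by linarith)
    show τ + (1 - τ) * (Real.arctan r / Real.pi + 1 / 2) <
      τ + (1 - τ) * (Real.arctan r' / Real.pi + 1 / 2)
    linarith
  refine ⟨fun r => N n (f r), fun r r' hrr => ?_, fun r => inferInstance⟩
  have hpos : 0 < f r := h1.trans_lt (hf0 r)
  refine lt_of_le_of_ne (N_mono hpos (hfm hrr).le (hf1 r')) fun hN => ?_
  have h4 := (h3 _ _ hpos (hfm hrr) (hf1 r')).1 hN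
  exact absurd (hf0 r') (not_lt.2 h4)

theorem frag_union (h : ¬ Fragmentation n) : Union (HamBar n) := by
  obtain ⟨τ, h1, h2, h3, h4⟩ := nofrag h
  have hs : ∀ k : ℕ, 0 < 1 - 1 / ((k : ℝ) + 2) ∧ 1 - 1 / ((k : ℝ) + 2) < 1 := by
    intro k
    have h5 : (0 : ℝ) < (k : ℝ) + 2 := by positivity
    have h6 : 1 / ((k : ℝ) + 2) < 1 := by
      rw [div_lt_one h5]
      have : (0 : ℝ) ≤ k := Nat.cast_nonneg k
      linarith
    have h7 : 0 < 1 / ((k : ℝ) + 2) := by positivity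
    constructor <;> linarith
  refine ⟨fun k => N n (1 - 1 / ((k : ℝ) + 2)), fun k m hkm => ?_, fun k => inferInstance,
    fun k => h4 _ (hs k).1 (hs k).2, fun φ => ?_⟩
  · refine N_mono (hs k).1 ?_ (hs m).2.le
    have h5 : (k : ℝ) ≤ m := by exact_mod_cast hkm
    have h6 : 1 / ((m : ℝ) + 2) ≤ 1 / ((k : ℝ) + 2) := by
      apply one_div_le_one_div_of_le
      · positivity
      · linarith
    linarith
  · obtain ⟨ρ, hρ, hρ1, hφ⟩ := exists_Sh φ
    obtain ⟨k, hk⟩ := exists_nat_gt (1 / (1 - ρ))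
    refine ⟨k, N_mono hρ ?_ (hs k).2.le (Subgroup.subset_normalClosure hφ)⟩
    have h5 : 1 / ((k : ℝ) + 2) ≤ 1 - ρ := by
      rw [div_le_iff₀ (by positivity)]
      rw [div_lt_iff₀ (by linarith)] at hk
      nlinarith
    linarith

end Pool.Agent.J6H85.NS
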