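import Pool.Agent.GR.Flow

/-!
# Smooth flows with a cocycle
-/

set_option autoImplicit false

open Set Filter Topology
open scoped ContDiff

namespace Pool.Agent.J6H85.NS

theorem exists_joint {V U : Type} [NormedAddCommGroup V] [NormedSpace ℝ V] [CompleteSpace V]
    [NormedAddCommGroup U] [NormedSpace ℝ U] [CompleteSpace U] {Y : ℝ × V → V × U}
    (hY : ContDiff ℝ ∞ Y) (hc : HasCompactSupport Y) :
    ∃ Φ : ℝ × V → V × U, ContDiff ℝ ∞ Φ ∧ (∀ x, Φ (0, x) = (x, 0)) ∧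
      ∀ t x, HasDerivAt (fun s => Φ (s, x)) (Y (t, (Φ (t, x)).1)) t := by
  obtain ⟨C, hC⟩ := hY.lipschitzWith_of_hasCompactSupport hc (by simp)
  obtain ⟨M, hM⟩ := hc.exists_bound_of_continuous hY.continuous
  let Z : ℝ × (V × U) → ℝ × (V × U) := fun w => (1, Y (w.1, w.2.1))
  have hZ : ContDiff ℝ ∞ Z := contDiff_const.prodMk
    (hY.comp (contDiff_fst.prodMk (contDiff_fst.comp contDiff_snd)))
  have hZL : LipschitzWith C Z := by
    refine LipschitzWith.of_dist_le_mul fun w w' => ?_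
    have h1 := hC.dist_le_mul (w.1, w.2.1) (w'.1, w'.2.1)
    have h2 : dist (w.1, w.2.1) (w'.1, w'.2.1) ≤ dist w w' := by
      rw [Prod.dist_eq, Prod.dist_eq]
      exact max_le_max le_rfl (by rw [Prod.dist_eq]; exact le_max_left _ _)
    show dist ((1 : ℝ), Y (w.1, w.2.1)) ((1 : ℝ), Y (w'.1, w'.2.1)) ≤ _
    rw [Prod.dist_eq, dist_self, max_eq_right dist_nonneg]
    exact h1.trans (mul_le_mul_of_nonneg_left h2 C.2)
  have hZM : ∀ w, ‖Z w‖ ≤ (Real.toNNReal (max 1 M) : NNReal) := by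
    intro w
    refine le_trans ?_ (Real.le_coe_toNNReal _)
    show ‖((1 : ℝ), Y (w.1, w.2.1))‖ ≤ _
    rw [Prod.norm_def, norm_one]
    exact max_le_max le_rfl (hM _)
  choose g h0 h1 using fun p => Pool.Agent.GR.Flow.exists_solution hZL hZM p
  have hfl : Pool.Agent.GR.Flow.IsFlowOf Z (fun t p => g p t) := ⟨h0, h1⟩
  have hg : ContDiff ℝ ∞ (fun q : ℝ × (ℝ × (V × U)) => g q.2 q.1) := by
    rw [contDiff_infty]
    intro m
    have h2 : ContDiff ℝ ((m + 1 : ℕ) : WithTop ℕ∞) (fun q : ℝ × (ℝ × (V × U)) => g q.2 q.1) :=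
      Pool.Agent.GR.Flow.contDiff_flow (X := ⟨Z, hZ.continuous⟩) (Nat.succ_ne_zero m)
        (hZ.of_le (by exact_mod_cast le_top)) hZL hfl
    exact h2.of_le (by exact_mod_cast Nat.le_succ m)
  have hfst : ∀ x t, (g (0, (x, 0)) t).1 = t := by
    intro x t
    have hd : ∀ s, HasDerivAt (fun s => (g (0, (x, 0)) s).1 - s) 0 s := by
      intro s
      have h3 := ((ContinuousLinearMap.fst ℝ ℝ (V × U)).hasFDerivAt.comp_hasDerivAt s
        (h1 (0, (x, 0)) s)).sub (hasDerivAt_id s)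
      have e : (ContinuousLinearMap.fst ℝ ℝ (V × U)) (Z (g (0, (x, 0)) s)) - 1 = 0 := by
        show (1 : ℝ) - 1 = 0
        norm_num
      rw [e] at h3
      exact h3
    have h4 := is_const_of_deriv_eq_zero (fun s => (hd s).differentiableAt)
      (fun s => (hd s).deriv) t 0
    rw [h0] at h4
    simp only [sub_self] at h4
    linarith
  refine ⟨fun p => (g (0, (p.2, 0)) p.1).2, ?_, fun x => ?_, fun t x => ?_⟩
  · have h2 : ContDiff ℝ ∞ (fun p : ℝ × V => ((p.1, ((0 : ℝ), (p.2, (0 : U)))) :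
        ℝ × (ℝ × (V × U)))) :=
      contDiff_fst.prodMk (contDiff_const.prodMk (contDiff_snd.prodMk contDiff_const))
    exact contDiff_snd.comp (hg.comp h2)
  · simp only [h0]
  · have h3 := (ContinuousLinearMap.snd ℝ ℝ (V × U)).hasFDerivAt.comp_hasDerivAt t
      (h1 (0, (x, 0)) t)
    have e : (ContinuousLinearMap.snd ℝ ℝ (V × U)) (Z (g (0, (x, 0)) t)) =
        Y (t, ((g (0, (x, 0)) t).2).1) := by
      show Y ((g (0, (x, 0)) t).1, ((g (0, (x, 0)) t).2).1) = _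
      rw [hfst]
    rw [e] at h3
    exact h3

/-- exchange of derivatives -/
theorem swap {V U : Type} [NormedAddCommGroup V] [NormedSpace ℝ V]
    [NormedAddCommGroup U] [NormedSpace ℝ U] {Φ : ℝ × V → U} (hΦ : ContDiff ℝ ∞ Φ)
    {Z : ℝ × V → U} (hZ : ∀ t x, HasDerivAt (fun s => Φ (s, x)) (Z (t, x)) t)
    (t : ℝ) (x k : V) :
    HasDerivAt (fun s => fderiv ℝ Φ (s, x) (0, k)) (fderiv ℝ Z (t, x) (0, k)) t := by
  have hd : Differentiable ℝ Φ := hΦ.differentiable (by simp)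
  have hd2 : Differentiable ℝ (fderiv ℝ Φ) :=
    (hΦ.fderiv_right (m := ∞) (by simp)).differentiable (by simp)
  have hcurve : ∀ t x, HasDerivAt (fun s : ℝ => (s, x)) ((1 : ℝ), (0 : V)) t := fun t x =>
    (hasDerivAt_id t).prodMk (hasDerivAt_const t x)
  have h1 : ∀ p : ℝ × V, fderiv ℝ Φ p (1, 0) = Z p := by
    rintro ⟨t, x⟩
    have h2 := (hd (t, x)).hasFDerivAt.comp_hasDerivAt t (hcurve t x)
    exact h2.unique (hZ t x)
  have h3 : fderiv ℝ Z (t, x) (0, k) = fderiv ℝ (fderiv ℝ Φ) (t, x) (0, k) (1, 0) := by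
    have e : Z = fun p => fderiv ℝ Φ p (1, 0) := funext fun p => (h1 p).symm
    rw [e]
    have h4 := (hd2 (t, x)).hasFDerivAt.clm_apply (hasFDerivAt_const ((1 : ℝ), (0 : V)) (t, x))
    rw [h4.fderiv]
    simp
  have h5 : IsSymmSndFDerivAt ℝ Φ (t, x) := by
    refine (hΦ.contDiffAt).isSymmSndFDerivAt ?_
    rw [minSmoothness_of_isRCLikeNormedField]
    exact ENat.LEInfty.out
  rw [h3, h5]
  have h6 := (hd2 (t, x)).hasFDerivAt.comp_hasDerivAt t (hcurve t x)
  have h7 := h6.clm_apply (hasDerivAt_const t ((0 : ℝ), k))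
  simpa using h7

end Pool.Agent.J6H85.NS
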