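import Pool.Agent.J6H85.NS.Dil
import Pool.Agent.J6H85.ZO.Main0

/-!
# The jumps of the chain of the normal closures
-/

set_option autoImplicit false

open Set Filter Topology TopologicalSpace
open Pool.Agent.Y453.HB
open Pool.Agent.Y309.HB
open Pool.Agent.N235.DH
open Pool.Agent.J6H85.LR
open Pool.Agent.R773.HN (nm D Supp nm_nonneg nm_add nm_zero nm_smul nm_neg nm_sub_comm nm_cont nm_tri
  norm_le_nm D_closed D_compact nm_lt_one)
open scoped Cardinal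

namespace Pool.Agent.J6H85.NS

variable {n : ℕ}

/-- the closed ball of radius `κ` -/
def Db (n : ℕ) (κ : ℝ) : Compacts (E n) := ⟨D 0 κ, D_compact _ _⟩

theorem Db_InB {κ : ℝ} (hκ : κ < 1) : ZO.InB (Db n κ) := by
  intro x hx
  have h1 : nm (x - 0) ≤ κ := hx
  rw [sub_zero] at h1
  exact Q_of_nm (h1.trans_lt hκ)

/-- a subgroup containing the small elements supported in the closed ball contains the group of the
open ball -/
theorem Sh_sub_of_ball {M : Subgroup (HamBar n)} {κ ε : ℝ} (hκ0 : 0 < κ) (hκ1 : κ ≤ 1) (hε : 0 < ε)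
    (h : ZO.Ba (Db n κ : Set (E n)) ε ⊆ M) : Sh n κ ⊆ M := by
  have h1 : M.comap (sc κ hκ0 hκ1) = ⊤ := by
    apply ZO.open_top
    intro K hK hK1
    refine ⟨ε, hε, fun φ hφ => ?_⟩
    refine h ⟨?_, fun x => ?_⟩
    · exact cpy_HK hκ0 (by rw [nm_zero]; linarith) φ.2 (W_sub_D_self 0 κ)
    · obtain ⟨y, rfl⟩ : ∃ y, x = κ • y := ⟨κ⁻¹ • x, by
        rw [smul_smul, mul_inv_cancel₀ hκ0.ne', one_smul]⟩
      rw [sc_coe, cpy_apply', sub_zero, zero_add, inv_smul_smul₀ hκ0.ne', dist_smul₀,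
        Real.norm_of_nonneg hκ0.le]
      have h2 := hφ.2 y
      have h5 : 0 ≤ dist ((φ : E n ≃ₜ E n) y) y := dist_nonneg
      nlinarith
  intro x hx
  obtain ⟨g, rfl⟩ := (mem_Sh hκ0 hκ1).1 hx
  have h2 : g ∈ M.comap (sc κ hκ0 hκ1) := by
    rw [h1]
    exact Subgroup.mem_top g
  exact h2

/-- left continuity -/
theorem N_left {κ : ℝ} (hκ0 : 0 < κ) (hκ1 : κ ≤ 1) {φ : HamBar n} (h : φ ∈ N n κ) :
    ∃ k : ℕ, φ ∈ N n (κ * (1 - 1 / ((k : ℝ) + 2))) := by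
  have hs : ∀ k : ℕ, 0 < 1 - 1 / ((k : ℝ) + 2) ∧ 1 - 1 / ((k : ℝ) + 2) < 1 := by
    intro k
    have h5 : (0 : ℝ) < (k : ℝ) + 2 := by positivity
    have h6 : 1 / ((k : ℝ) + 2) < 1 := by
      rw [div_lt_one h5]
      have : (0 : ℝ) ≤ k := Nat.cast_nonneg k
      linarith
    have h7 : 0 < 1 / ((k : ℝ) + 2) := by positivity
    constructor <;> linarith
  have hmono : Monotone fun k : ℕ => N n (κ * (1 - 1 / ((k : ℝ) + 2))) := by
    intro k m hkm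
    refine N_mono (mul_pos hκ0 (hs k).1) ?_ (mul_le_one₀ hκ1 (hs m).1.le (hs m).2.le)
    have h5 : (k : ℝ) ≤ m := by exact_mod_cast hkm
    have h6 : 1 / ((m : ℝ) + 2) ≤ 1 / ((k : ℝ) + 2) := by
      apply one_div_le_one_div_of_le
      · positivity
      · linarith
    exact mul_le_mul_of_nonneg_left (by linarith) hκ0.le
  let M : Subgroup (HamBar n) := ⨆ k : ℕ, N n (κ * (1 - 1 / ((k : ℝ) + 2)))
  have hM : ∀ x, x ∈ M ↔ ∃ k : ℕ, x ∈ N n (κ * (1 - 1 / ((k : ℝ) + 2))) := fun x =>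
    Subgroup.mem_iSup_of_directed hmono.directed_le
  have hMn : M.Normal := ⟨fun a ha g => by
    rw [hM] at ha ⊢
    obtain ⟨k, hk⟩ := ha
    exact ⟨k, Subgroup.Normal.conj_mem inferInstance _ hk g⟩⟩
  have h1 : N n κ ≤ M := by
    refine Subgroup.normalClosure_le_normal fun x hx => ?_
    obtain ⟨g, rfl⟩ := (mem_Sh hκ0 hκ1).1 hx
    obtain ⟨ρ, hρ, hρ1, hg⟩ := exists_Sh g
    obtain ⟨g', rfl⟩ := (mem_Sh hρ hρ1.le).1 hg
    obtain ⟨k, hk⟩ := exists_nat_gt (1 / (1 - ρ))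
    have h5 : 1 / ((k : ℝ) + 2) ≤ 1 - ρ := by
      rw [div_le_iff₀ (by positivity)]
      rw [div_lt_iff₀ (by linarith)] at hk
      nlinarith
    rw [SetLike.mem_coe, hM]
    refine ⟨k, N_mono (s := κ * ρ) (by positivity) (mul_le_mul_of_nonneg_left (by linarith) hκ0.le)
      (mul_le_one₀ hκ1 (hs k).1.le (hs k).2.le) (Subgroup.subset_normalClosure ?_)⟩
    rw [sc_sc]
    exact (mem_Sh (by positivity) (mul_le_one₀ hκ1 hρ.le hρ1.le)).2 ⟨g', rfl⟩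
  exact (hM φ).1 (h1 h)

/-- the normal closure of the group of the open ball is meagre in the group of the closed ball -/
theorem meagre_of {τ κ : ℝ} (hτ : ∀ s s' : ℝ, 0 < s → s < s' → s' ≤ 1 →
      (N n s = N n s' ↔ s' ≤ τ)) (hκ0 : 0 < κ) (hκτ : τ < κ) (hκ1 : κ < 1) :
    IsMeagre (ZO.toH (Db_InB (n := n) hκ1) ⁻¹' (N n κ : Set (HamBar n))) := by
  have hs : ∀ k : ℕ, 0 < 1 - 1 / ((k : ℝ) + 2) ∧ 1 - 1 / ((k : ℝ) + 2) < 1 := by
    intro k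
    have h5 : (0 : ℝ) < (k : ℝ) + 2 := by positivity
    have h6 : 1 / ((k : ℝ) + 2) < 1 := by
      rw [div_lt_one h5]
      have : (0 : ℝ) ≤ k := Nat.cast_nonneg k
      linarith
    have h7 : 0 < 1 / ((k : ℝ) + 2) := by positivity
    constructor <;> linarith
  have h1 : ∀ k : ℕ, IsMeagre (ZO.toH (Db_InB (n := n) hκ1) ⁻¹'
      (N n (κ * (1 - 1 / ((k : ℝ) + 2))) : Set (HamBar n))) := by
    intro k
    by_contra hc
    have hsk0 : 0 < κ * (1 - 1 / ((k : ℝ) + 2)) := mul_pos hκ0 (hs k).1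
    have hsk1 : κ * (1 - 1 / ((k : ℝ) + 2)) < κ := mul_lt_of_lt_one_right hκ0 (hs k).2
    have ht := ZO.tame_frag (n := n) _ hsk0 (hsk1.le.trans hκ1.le)
    obtain ⟨m, j, ε, hε, h2⟩ := ht.unif (Db_InB hκ1) hc
    have h3 : Sh n κ ⊆ N n (κ * (1 - 1 / ((k : ℝ) + 2))) := Sh_sub_of_ball hκ0 hκ1.le hε
      fun φ hφ => Prods.mem_subgroup (ht.sub m) (h2 hφ)
    have h4 : N n (κ * (1 - 1 / ((k : ℝ) + 2))) = N n κ :=
      le_antisymm (N_mono hsk0 hsk1.le hκ1.le) (Subgroup.normalClosure_le_normal h3)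
    exact absurd ((hτ _ _ hsk0 hsk1 hκ1.le).1 h4) (not_le.2 hκτ)
  refine IsMeagre.mono (fun φ hφ => ?_) (isMeagre_iUnion h1)
  obtain ⟨k, hk⟩ := N_left hκ0 hκ1.le hφ
  exact mem_iUnion.2 ⟨k, hk⟩

theorem jump {τ κ : ℝ} (hτ : ∀ s s' : ℝ, 0 < s → s < s' → s' ≤ 1 →
      (N n s = N n s' ↔ s' ≤ τ)) (hκ0 : 0 < κ) (hκτ : τ < κ) (hκ1 : κ < 1) :
    𝔠 ≤ #((⨅ s' : Ioc κ 1, N n s' : Subgroup (HamBar n)) ⧸
      (N n κ).subgroupOf (⨅ s' : Ioc κ 1, N n s')) := by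
  obtain ⟨f, hf⟩ := ZO.mycielski (meagre_of hτ hκ0 hκτ hκ1)
  have hmem : ∀ a, ZO.toH (Db_InB (n := n) hκ1) (f a) ∈
      (⨅ s' : Ioc κ 1, N n s' : Subgroup (HamBar n)) := by
    intro a
    rw [Subgroup.mem_iInf]
    rintro ⟨s', hs1, hs2⟩
    refine Subgroup.subset_normalClosure (Sh_of (L := D 0 κ) (D_compact _ _) hκ0 (fun x hx => ?_)
      hs1 hs2 (f a).2)
    have h1 : nm (x - 0) ≤ κ := hx
    rwa [sub_zero] at h1
  have h1 : Function.Injective fun a : ℕ → Bool =>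
      ((⟨ZO.toH (Db_InB (n := n) hκ1) (f a), hmem a⟩ :
        (⨅ s' : Ioc κ 1, N n s' : Subgroup (HamBar n))) :
        (⨅ s' : Ioc κ 1, N n s' : Subgroup (HamBar n)) ⧸
          (N n κ).subgroupOf (⨅ s' : Ioc κ 1, N n s')) := by
    intro a b hab
    by_contra hne
    have h2 := QuotientGroup.eq.1 hab
    rw [Subgroup.mem_subgroupOf] at h2
    apply hf a b hne
    show ZO.toH (Db_InB (n := n) hκ1) ((f a)⁻¹ * f b) ∈ N n κ
    rw [map_mul, map_inv]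
    exact h2
  have h2 := Cardinal.mk_le_of_injective h1
  have h3 : #(ℕ → Bool) = 𝔠 := by simp
  rwa [h3] at h2

end Pool.Agent.J6H85.NS
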