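import Pool.Agent.J6H85.LR.Pub

/-!
# Definitions for the dichotomy

`HamGroup n` is the group of the compactly supported Hamiltonian homeomorphisms of the open unit ball
of `ℝ^{2n}` (`Pool/Agent/Results/MP_68f289_gt/HomogeneousQuasimorphisms.lean`, the same as in the
frozen statement S13311), `φ.map` is the homeomorphism `φ` as a map.
-/

set_option autoImplicit false

open Pool.Agent.Results.MP_68f289_gt.HomogeneousQuasimorphisms (E HamGroup ball FixesOff
  IsTimeOneMap ConvergesTo Homeo)

namespace Pool.Agent.J6H85.NS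

variable {n : ℕ}

/-- the elements of `HamGroup n` which are supported in `K` and are uniform limits of Hamiltonian
diffeomorphisms supported in `K` -/
def Limits (K : Set (E n)) : Set (HamGroup n) :=
  {φ | FixesOff K φ.1 ∧ ∃ u : ℕ → Homeo n, (∀ k, FixesOff K (u k)) ∧ (∀ k, IsTimeOneMap (u k)) ∧
    ConvergesTo u φ.1}

/-- for every `g ≠ 1` and every compact subset `K` of the open unit ball there are a compact subset
`K'` of the open unit ball, `k` and `ε > 0` such that every element of `Limits K` which moves all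
points by less than `ε` is a product of at most `k` conjugates of `g` and `g⁻¹` by elements of
`Limits K'` -/
def UniformlySimple (n : ℕ) : Prop := ∀ g : HamGroup n, g ≠ 1 →
  ∀ K : Set (E n), IsCompact K → K ⊆ ball n → ∃ K' : Set (E n), IsCompact K' ∧ K' ⊆ ball n ∧
    ∃ (k : ℕ) (ε : ℝ), 0 < ε ∧ ∀ φ ∈ Limits K, (∀ x, dist (φ.map x) x < ε) →
      ∃ l : List (HamGroup n), l.length ≤ k ∧ l.prod = φ ∧
        ∀ y ∈ l, ∃ h ∈ Limits K', y = h * g * h⁻¹ ∨ y = h * g⁻¹ * h⁻¹

end Pool.Agent.J6H85.NS
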