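import Pool.Agent.J6H85.NS.Main0
import Pool.Agent.J6H85.NS.Pub

/-!
# The theorem
-/

set_option autoImplicit false

open Pool.Agent.Results.MP_68f289_gt.HomogeneousQuasimorphisms (E HamGroup timeOne_iff)
open Pool.Agent.J6H85.Frag (Sh)
open Cardinal (mk continuum)
open Subgroup (normalClosure)

namespace Pool.Agent.J6H85.NS

theorem mem_Limits {n : ℕ} (K : Set (E n)) (φ : HamGroup n) :
    φ ∈ Limits K ↔ (φ.1 : E n ≃ₜ E n) ∈ Pool.Agent.N235.DH.HK n K := by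
  constructor
  · rintro ⟨h1, u, h2, h3, h4⟩
    exact ⟨h1, u, h2, fun k => (timeOne_iff _).1 (h3 k), h4⟩
  · rintro ⟨h1, u, h2, h3, h4⟩
    exact ⟨h1, u, h2, fun k => (timeOne_iff _).2 (h3 k), h4⟩

theorem main1 (n : ℕ) (hn : 0 < n) : Statement (HamGroup n) (Sh n) (UniformlySimple n) :=
  main_gen _ Limits hn (Pool.Agent.Results.MP_68f289_gt.HomogeneousQuasimorphisms.closure_eq n)
    mem_Limits

theorem main (n : ℕ) (hn : 0 < n) :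
    List.TFAE [IsSimpleGroup (HamGroup n),
      ∃ g : HamGroup n, normalClosure {g} = ⊤,
      ∃ A : Set (HamGroup n), A.Finite ∧ normalClosure A = ⊤,
      ∃ s : ℝ, 0 < s ∧ s < 1 ∧ ∃ A : Set (HamGroup n), A ⊆ Sh n s ∧ mk A < continuum ∧
        normalClosure A = ⊤,
      commutator (HamGroup n) = ⊤ ∧ ∃ s : ℝ, 0 < s ∧ s < 1 ∧ normalClosure (Sh n s) = ⊤,
      ∀ N : ℕ → Subgroup (HamGroup n), (∀ k, (N k).Normal) → Monotone N →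
        (∀ φ, ∃ k, φ ∈ N k) → ∃ k, N k = ⊤,
      ∃ M : Subgroup (HamGroup n), M.Normal ∧ M ≠ ⊤ ∧
        ∀ N : Subgroup (HamGroup n), N.Normal → N ≠ ⊤ → N ≤ M,
      ∀ N : ℕ → Subgroup (HamGroup n), (∀ k, (N k).Normal) → Monotone N →
        ∃ k, ∀ m, k ≤ m → N m = N k,
      ∀ N : ℕ → Subgroup (HamGroup n), (∀ k, (N k).Normal) → Antitone N →
        ∃ k, ∀ m, k ≤ m → N m = N k,
      mk {N : Subgroup (HamGroup n) // N.Normal} < continuum,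
      ¬ ∃ c : ℝ → Subgroup (HamGroup n), StrictMono c ∧ ∀ r, (c r).Normal,
      ∀ N : Subgroup (HamGroup n), N.Normal → N ≠ ⊥ → mk (HamGroup n ⧸ N) < continuum,
      UniformlySimple n,
      ∀ ν : HamGroup n → ℝ, (∀ φ ψ, ν (φ * ψ⁻¹) ≤ max (ν φ) (ν ψ)) →
        (∀ φ ψ, ν (ψ * φ * ψ⁻¹) = ν φ) → ∃ C, ∀ φ, ν φ ≤ C] ∧
    (∃ τ : ℝ, 0 ≤ τ ∧ τ ≤ 1 ∧ (∀ s s' : ℝ, 0 < s → s < s' → s' ≤ 1 →
        (normalClosure (Sh n s) = normalClosure (Sh n s') ↔ s' ≤ τ)) ∧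
      (τ = 1 ↔ ∃ s : ℝ, 0 < s ∧ s < 1 ∧ normalClosure (Sh n s) = ⊤) ∧
      (∀ s : ℝ, 0 < s → τ < s → s < 1 →
        continuum ≤ mk ((⨅ s' : Set.Ioc s 1, normalClosure (Sh n s') : Subgroup (HamGroup n)) ⧸
          (normalClosure (Sh n s)).subgroupOf
            (⨅ s' : Set.Ioc s 1, normalClosure (Sh n s'))))) ∧
    (commutator (HamGroup n) ≠ ⊤ → ∃ c : Set ℝ → Subgroup (HamGroup n), (∀ A, (c A).Normal) ∧
      (∀ A, commutator (HamGroup n) ≤ c A) ∧ ∀ A B, c A ≤ c B ↔ A ⊆ B) :=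
  main1 n hn

end Pool.Agent.J6H85.NS
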