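import Pool.Agent.J6H85.NS.Jump
import Pool.Agent.J6H85.ZO.Main0

/-!
# The theorem for `HamBar n`
-/

set_option autoImplicit false

open Set
open Pool.Agent.Y453.HB
open scoped Cardinal

namespace Pool.Agent.J6H85.NS

variable {n : ℕ}

/-- uniform simplicity near the identity, for a subgroup -/
def Unif {Γ : Subgroup (E n ≃ₜ E n)} (L : Set (E n) → Set Γ) : Prop := ∀ g : Γ, g ≠ 1 →
  ∀ K : Set (E n), IsCompact K → K ⊆ {p : E n | Q p < 1} → ∃ K' : Set (E n), IsCompact K' ∧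
    K' ⊆ {p : E n | Q p < 1} ∧
    ∃ (k : ℕ) (ε : ℝ), 0 < ε ∧ ∀ φ ∈ L K, (∀ x, dist ((φ : E n ≃ₜ E n) x) x < ε) →
      ∃ l : List Γ, l.length ≤ k ∧ l.prod = φ ∧
        ∀ y ∈ l, ∃ h ∈ L K', y = h * g * h⁻¹ ∨ y = h * g⁻¹ * h⁻¹

/-- the statement, for a group `G` with subsets `S s` -/
def Statement (G : Type) [Group G] (S : ℝ → Set G) (U : Prop) : Prop :=
  List.TFAE [IsSimpleGroup G,
    ∃ g : G, Subgroup.normalClosure {g} = ⊤,
    ∃ A : Set G, A.Finite ∧ Subgroup.normalClosure A = ⊤,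
    ∃ s : ℝ, 0 < s ∧ s < 1 ∧ ∃ A : Set G, A ⊆ S s ∧ #A < 𝔠 ∧ Subgroup.normalClosure A = ⊤,
    commutator G = ⊤ ∧ ∃ s : ℝ, 0 < s ∧ s < 1 ∧ Subgroup.normalClosure (S s) = ⊤,
    ∀ N : ℕ → Subgroup G, (∀ k, (N k).Normal) → Monotone N → (∀ φ, ∃ k, φ ∈ N k) → ∃ k, N k = ⊤,
    ∃ M : Subgroup G, M.Normal ∧ M ≠ ⊤ ∧ ∀ N : Subgroup G, N.Normal → N ≠ ⊤ → N ≤ M,
    ∀ N : ℕ → Subgroup G, (∀ k, (N k).Normal) → Monotone N → ∃ k, ∀ m, k ≤ m → N m = N k,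
    ∀ N : ℕ → Subgroup G, (∀ k, (N k).Normal) → Antitone N → ∃ k, ∀ m, k ≤ m → N m = N k,
    #{N : Subgroup G // N.Normal} < 𝔠,
    ¬ ∃ c : ℝ → Subgroup G, StrictMono c ∧ ∀ r, (c r).Normal,
    ∀ N : Subgroup G, N.Normal → N ≠ ⊥ → #(G ⧸ N) < 𝔠,
    U,
    ∀ ν : G → ℝ, (∀ φ ψ, ν (φ * ψ⁻¹) ≤ max (ν φ) (ν ψ)) → (∀ φ ψ, ν (ψ * φ * ψ⁻¹) = ν φ) →
      ∃ C, ∀ φ, ν φ ≤ C] ∧
  (∃ τ : ℝ, 0 ≤ τ ∧ τ ≤ 1 ∧ (∀ s s' : ℝ, 0 < s → s < s' → s' ≤ 1 →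
      (Subgroup.normalClosure (S s) = Subgroup.normalClosure (S s') ↔ s' ≤ τ)) ∧
    (τ = 1 ↔ ∃ s : ℝ, 0 < s ∧ s < 1 ∧ Subgroup.normalClosure (S s) = ⊤) ∧
    (∀ s : ℝ, 0 < s → τ < s → s < 1 →
      𝔠 ≤ #((⨅ s' : Ioc s 1, Subgroup.normalClosure (S s') : Subgroup G) ⧸
        (Subgroup.normalClosure (S s)).subgroupOf
          (⨅ s' : Ioc s 1, Subgroup.normalClosure (S s'))))) ∧
  (commutator G ≠ ⊤ → ∃ c : Set ℝ → Subgroup G, (∀ A, (c A).Normal) ∧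
    (∀ A, commutator G ≤ c A) ∧ ∀ A B, c A ≤ c B ↔ A ⊆ B)

theorem frag_of {s : ℝ} (hs : 0 < s) (hs1 : s < 1) (h : N n s = ⊤) : LR.Fragmentation n := by
  by_contra hc
  obtain ⟨τ, -, -, -, h4⟩ := nofrag hc
  exact h4 s hs hs1 h

theorem unif_of_simple (h : IsSimpleGroup (HamBar n)) : Unif (ZO.In (n := n)) := by
  intro g hg K hK hK1
  have h1 : Subgroup.normalClosure {g} = ⊤ :=
    (h.eq_bot_or_eq_top_of_normal _ Subgroup.normalClosure_normal).resolve_left fun hb => hg (by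
      have h1 : g ∈ Subgroup.normalClosure {g} := Subgroup.subset_normalClosure rfl
      rwa [hb, Subgroup.mem_bot] at h1)
  have h2 := ((ZO.tfae_countable (Set.countable_singleton g)).out 0 3).1 h1
  obtain ⟨K', hK', F, hF, -, k, ε, hε, h3⟩ := h2 K ⟨hK, hK1⟩
  refine ⟨K', hK'.1, hK'.2, k, ε, hε, fun φ hφ hx => ?_⟩
  obtain ⟨l, hl1, hl2, hl3⟩ := h3 ⟨hφ, hx⟩
  refine ⟨l, hl1, hl3, fun y hy => ?_⟩
  obtain ⟨a, ha, x, hx, rfl⟩ := hl2 y hy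
  refine ⟨a, ha, ?_⟩
  rcases hx with hx | hx
  · left
    rw [Set.mem_singleton_iff.1 (hF hx)]
  · right
    have h4 : x⁻¹ = g := Set.mem_singleton_iff.1 (hF hx)
    rw [← h4, inv_inv]

theorem simple_of_unif (hn : 0 < n) (h : Unif (ZO.In (n := n))) : IsSimpleGroup (HamBar n) := by
  obtain ⟨g, hg, -⟩ := LR.HamBar_nontrivial hn
  have : Nontrivial (HamBar n) := ⟨g, 1, hg⟩
  refine ⟨fun M hM => ?_⟩
  by_cases hb : M = ⊥
  · exact Or.inl hb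
  · right
    obtain ⟨⟨x, hx⟩, hx1⟩ := (Subgroup.ne_bot_iff_exists_ne_one).1 hb
    refine ZO.open_top fun K hK hK1 => ?_
    obtain ⟨K', -, -, k, ε, hε, h1⟩ := h x (fun hc => hx1 (Subtype.ext hc)) K hK hK1
    refine ⟨ε, hε, fun φ hφ => ?_⟩
    obtain ⟨l, -, rfl, hl⟩ := h1 φ hφ.1 hφ.2
    refine list_prod_mem fun y hy => ?_
    obtain ⟨a, -, rfl | rfl⟩ := hl y hy
    · exact hM.conj_mem _ hx a
    · exact hM.conj_mem _ (M.inv_mem hx) a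

theorem simple_of_index (hn : 0 < n)
    (h : ∀ M : Subgroup (HamBar n), M.Normal → M ≠ ⊥ → #(HamBar n ⧸ M) < 𝔠) :
    IsSimpleGroup (HamBar n) := by
  obtain ⟨g, hg, hg1⟩ := LR.HamBar_nontrivial hn
  have : Nontrivial (HamBar n) := ⟨g, 1, hg⟩
  have h0 : Subgroup.normalClosure {g} ≠ ⊥ := fun hb => hg (by
    have h1 : g ∈ Subgroup.normalClosure {g} := Subgroup.subset_normalClosure rfl
    rwa [hb, Subgroup.mem_bot] at h1)
  have h1 : Subgroup.normalClosure {g} = ⊤ :=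
    ((ZO.tfae_countable (Set.countable_singleton g)).out 0 1).2
      (h _ Subgroup.normalClosure_normal h0)
  refine ⟨fun M hM => ?_⟩
  by_cases hb : M = ⊥
  · exact Or.inl hb
  · right
    rw [eq_top_iff, ← h1]
    exact Subgroup.normalClosure_le_normal (Set.singleton_subset_iff.2 (hg1 M hM hb))

theorem main0 (hn : 0 < n) :
    Statement (HamBar n) (LR.Par.Sh (HamBar n)) (Unif (ZO.In (n := n))) := by
  have hZO := ZO.main0 hn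
  have hsimp : IsSimpleGroup (HamBar n) ↔ commutator (HamBar n) = ⊤ ∧ LR.Fragmentation n :=
    ZO.simple_iff' hn
  have hab : commutator (HamBar n) ≠ ⊤ → 𝔠 ≤ #(Abelianization (HamBar n)) := by
    intro h
    by_contra hc
    push Not at hc
    exact h ((ZO.tfae_comm (n := n).out 0 1).2 hc)
  have hs : ¬ IsSimpleGroup (HamBar n) → Chain (HamBar n) ∧ Union (HamBar n) := by
    intro h
    by_cases hF : LR.Fragmentation n
    · have h1 := hab fun hc => h (hsimp.2 ⟨hc, hF⟩)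
      exact ⟨cube_chain h1, cube_union h1⟩
    · exact ⟨frag_chain hF, frag_union hF⟩
  refine ⟨tfae_of hs _ ?_ ?_ _ ?_ _ ⟨unif_of_simple, simple_of_unif hn⟩ (simple_of_index hn), ?_, ?_⟩
  · rintro ⟨s, hs0, hs1, A, hA, hA1, hA2⟩
    have h1 : N n s = ⊤ := by
      rw [eq_top_iff, ← hA2]
      exact Subgroup.normalClosure_mono hA
    exact hsimp.2 ⟨hZO.2.2.2.2.1 A hA1 hA2, frag_of hs0 hs1 h1⟩
  · intro g hg
    obtain ⟨s, hs0, hs1, h1⟩ := exists_Sh g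
    refine ⟨s, hs0, hs1, {g}, Set.singleton_subset_iff.2 h1, ?_, hg⟩
    exact (Cardinal.lt_aleph0_of_finite _).trans Cardinal.aleph0_lt_continuum
  · refine hsimp.trans ⟨fun ⟨h1, h2⟩ => ⟨h1, 1 / 2, by norm_num, by norm_num,
      h2 _ (by norm_num) (by norm_num)⟩, fun ⟨h1, s, hs0, hs1, h2⟩ => ⟨h1, frag_of hs0 hs1 h2⟩⟩
  · obtain ⟨τ, h1, h2, h3⟩ := threshold n
    refine ⟨τ, h1, h2, h3, ⟨fun h => ?_, fun ⟨s, hs0, hs1, h⟩ => ?_⟩,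
      fun s hs0 hs1 hs2 => jump h3 hs0 hs1 hs2⟩
    · refine ⟨1 / 2, by norm_num, by norm_num, ?_⟩
      have h4 := (h3 (1 / 2) 1 (by norm_num) (by norm_num) le_rfl).2 h.ge
      rw [N_one] at h4
      exact h4
    · refine le_antisymm h2 ((h3 s 1 hs0 hs1 le_rfl).1 ?_)
      rw [N_one]
      exact h
  · intro h
    obtain ⟨c, h1, h2, h3, -⟩ := cube (hab h)
    exact ⟨c, h1, h2, h3⟩

theorem main_gen (Γ : Subgroup (E n ≃ₜ E n)) (L : Set (E n) → Set Γ) (hn : 0 < n)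
    (h : Γ = HamBar n) (hL : ∀ K (φ : Γ), φ ∈ L K ↔ (φ : E n ≃ₜ E n) ∈ Pool.Agent.N235.DH.HK n K) :
    Statement Γ (LR.Par.Sh Γ) (Unif L) := by
  subst h
  have h1 : L = ZO.In := by
    funext K
    ext φ
    exact hL K φ
  subst h1
  exact main0 hn

end Pool.Agent.J6H85.NS
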